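import Pool.Agent.Q22.CD.Upper

namespace Q22CD

lemma BB_le (k L P0 : ℕ) (hL : 1 ≤ L) (hP0 : 1 ≤ P0) : ∃ C : ℕ, 1 ≤ C ∧ ∀ ν p : ℕ, 1 ≤ ν →
    p ≤ P0 * ν → BB p k (L * ν) ≤ (C * ν) ^ (C * ν) := by
  set c := k * 13 ^ k with hc
  refine ⟨P0 * (8 * c + 1) * L * (16 * k + 34), ?_, ?_⟩
  · have h1 : 1 ≤ P0 * (8 * c + 1) * L := Nat.mul_pos (Nat.mul_pos hP0 (Nat.succ_pos _)) hL
    exact Nat.mul_pos h1 (by omega)
  intro ν p hν hp
  set n := L * ν with hn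
  have hn1 : 1 ≤ n := Nat.mul_pos hL hν
  set Y := P0 * (8 * c + 1) * L * ν with hY
  have hYn : n ≤ Y := by
    have : 1 ≤ P0 * (8 * c + 1) := Nat.mul_pos hP0 (Nat.succ_pos _)
    calc n = 1 * (L * ν) := by rw [one_mul]
      _ ≤ P0 * (8 * c + 1) * (L * ν) := Nat.mul_le_mul_right _ this
      _ = Y := by rw [hY]; ring
  have hY1 : 1 ≤ Y := hn1.trans hYn
  have hNN : NN k n ≤ 2 * c * n ^ (2 * k + 2) := by
    unfold NN
    have h1 : 12 * n ^ 2 + 1 ≤ 13 * n ^ 2 := by nlinarith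
    calc k * (12 * n ^ 2 + 1) ^ k * (2 * n ^ 2) ≤ k * (13 * n ^ 2) ^ k * (2 * n ^ 2) := by gcongr
      _ = 2 * c * n ^ (2 * k + 2) := by
        rw [hc, mul_pow, ← pow_mul, pow_add]
        ring
  have h2 : p * (4 * NN k n * n + 1) ≤ Y ^ (2 * k + 4) := by
    have h3 : 4 * NN k n * n + 1 ≤ (8 * c + 1) * n ^ (2 * k + 3) := by
      have h4 : 1 ≤ n ^ (2 * k + 3) := Nat.one_le_pow _ _ hn1
      calc 4 * NN k n * n + 1 ≤ 4 * (2 * c * n ^ (2 * k + 2)) * n + n ^ (2 * k + 3) := by gcongr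
        _ = (8 * c + 1) * n ^ (2 * k + 3) := by ring
    calc p * (4 * NN k n * n + 1) ≤ (P0 * ν) * ((8 * c + 1) * n ^ (2 * k + 3)) :=
          Nat.mul_le_mul hp h3
      _ = (P0 * (8 * c + 1) * 1 * ν) * n ^ (2 * k + 3) := by ring
      _ ≤ (P0 * (8 * c + 1) * L * ν) * Y ^ (2 * k + 3) := by gcongr
      _ = Y ^ (2 * k + 4) := by rw [← hY]; ring
  have h5 : BB p k n ≤ Y ^ ((16 * k + 34) * n) := by
    unfold BB
    calc ((p * (4 * NN k n * n + 1)) ^ (2 * (n + 1)) * n) ^ 2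
        ≤ ((Y ^ (2 * k + 4)) ^ (2 * (n + 1)) * Y) ^ 2 := by gcongr
      _ = Y ^ (((2 * k + 4) * (2 * (n + 1)) + 1) * 2) := by
        rw [← pow_mul, ← pow_succ, ← pow_mul]
      _ ≤ Y ^ ((16 * k + 34) * n) := by
        apply Nat.pow_le_pow_right hY1
        nlinarith
  refine h5.trans ?_
  have hb : Y ≤ P0 * (8 * c + 1) * L * (16 * k + 34) * ν := by
    calc Y = P0 * (8 * c + 1) * L * 1 * ν := by rw [hY]; ring
      _ ≤ _ := by gcongr; omega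
  have he : (16 * k + 34) * n ≤ P0 * (8 * c + 1) * L * (16 * k + 34) * ν := by
    have : 1 ≤ P0 * (8 * c + 1) := Nat.mul_pos hP0 (Nat.succ_pos _)
    calc (16 * k + 34) * n = 1 * L * (16 * k + 34) * ν := by rw [hn]; ring
      _ ≤ _ := by gcongr
  calc Y ^ ((16 * k + 34) * n) ≤ (P0 * (8 * c + 1) * L * (16 * k + 34) * ν) ^ ((16 * k + 34) * n) :=
        Nat.pow_le_pow_left hb _
    _ ≤ _ := Nat.pow_le_pow_right (hY1.trans hb) he

theorem upper_Fp' (p : ℕ) [Fact p.Prime] (k : ℕ) (S : Set (Wreath (ZMod p) (Fin k → ℤ)))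
    (hS : S.Finite) : ∃ C : ℕ, 1 ≤ C ∧ ∀ n : ℕ,
      conjDepth S n ≤ (((C * (n + 1)) ^ (C * (n + 1)) : ℕ) : ℕ∞) := by
  obtain ⟨L, hL, h⟩ := upper_Fp p k S hS
  obtain ⟨C, hC, h2⟩ := BB_le k L p hL (Fact.out : p.Prime).one_lt.le
  refine ⟨C, hC, fun n => (h n).trans ?_⟩
  exact_mod_cast h2 (n + 1) p (Nat.succ_pos n) (Nat.le_mul_of_pos_right _ (Nat.succ_pos n))

theorem upper_Z' (k : ℕ) (S : Set (Wreath ℤ (Fin k → ℤ)))
    (hS : S.Finite) : ∃ C : ℕ, 1 ≤ C ∧ ∀ n : ℕ,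
      conjDepth S n ≤ (((C * (n + 1)) ^ (C * (n + 1)) : ℕ) : ℕ∞) := by
  obtain ⟨L, hL, h⟩ := upper_Z k S hS
  obtain ⟨C, hC, h2⟩ := BB_le k L (4 * L) hL (by omega)
  refine ⟨C, hC, fun n => ?_⟩
  obtain ⟨p, _, hp, h3⟩ := h n
  refine h3.trans ?_
  exact_mod_cast h2 (n + 1) p (Nat.succ_pos n) hp

/-- Arithmetic: `2^(n^2)` beats `C' (C (C' n + 1))^(C (C' n + 1))` at some `n`, `n ≥ 16`. -/
lemma beats (C C' : ℕ) (hC : 1 ≤ C) (hC' : 1 ≤ C') : ∃ n : ℕ, 16 ≤ n ∧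
    C' * (C * (C' * n + 1)) ^ (C * (C' * n + 1)) < 2 ^ (n ^ 2) := by
  set κ := 2 * C * C' with hκ
  have hκ1 : 1 ≤ C * C' := Nat.mul_pos hC hC'
  have hκ2 : 2 ≤ κ := by nlinarith
  have hlt : κ < 2 ^ κ := Nat.lt_two_pow_self
  refine ⟨2 ^ (4 * κ + 4), ?_, ?_⟩
  · calc 16 = 2 ^ 4 := by norm_num
      _ ≤ 2 ^ (4 * κ + 4) := Nat.pow_le_pow_right (by norm_num) (by omega)
  set n := 2 ^ (4 * κ + 4) with hn
  have hn1 : 1 ≤ n := Nat.one_le_two_pow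
  have h1 : C * (C' * n + 1) ≤ κ * n := by
    calc C * (C' * n + 1) ≤ C * (C' * n + C' * n) := by
          apply Nat.mul_le_mul_left
          have : 1 ≤ C' * n := Nat.mul_pos hC' hn1
          omega
      _ = κ * n := by rw [hκ]; ring
  have hC'κ : C' ≤ κ * n := by
    calc C' = 1 * C' * 1 := by ring
      _ ≤ (2 * C) * C' * n := by gcongr; omega
      _ = κ * n := by rw [hκ]
  have h2 : κ * n ≤ 2 ^ (5 * κ + 4) := by
    calc κ * n ≤ 2 ^ κ * 2 ^ (4 * κ + 4) := Nat.mul_le_mul_right _ hlt.le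
      _ = 2 ^ (5 * κ + 4) := by rw [← pow_add]; congr 1; ring
  have hκn : 1 ≤ κ * n := Nat.mul_pos (by omega) hn1
  calc C' * (C * (C' * n + 1)) ^ (C * (C' * n + 1))
      ≤ (κ * n) * (κ * n) ^ (κ * n) := by
        apply Nat.mul_le_mul hC'κ
        calc (C * (C' * n + 1)) ^ (C * (C' * n + 1)) ≤ (κ * n) ^ (C * (C' * n + 1)) :=
              Nat.pow_le_pow_left h1 _
          _ ≤ (κ * n) ^ (κ * n) := Nat.pow_le_pow_right hκn h1
    _ = (κ * n) ^ (κ * n + 1) := by ring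
    _ ≤ (κ * n) ^ (2 * (κ * n)) := Nat.pow_le_pow_right hκn (by omega)
    _ ≤ (2 ^ (5 * κ + 4)) ^ (2 * (κ * n)) := Nat.pow_le_pow_left h2 _
    _ = 2 ^ ((5 * κ + 4) * (2 * κ) * n) := by rw [← pow_mul]; congr 1; ring
    _ < 2 ^ (n ^ 2) := by
      apply Nat.pow_lt_pow_right (by norm_num)
      rw [sq]
      apply Nat.mul_lt_mul_of_pos_right _ hn1
      -- (5κ+4)·2κ < 2^(4κ+4)
      have h3 : (2 ^ κ) ^ 4 * 16 = n := by rw [hn, ← pow_mul, pow_add]; congr 1; ring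
      rw [← h3]
      have h4 : κ + 1 ≤ 2 ^ κ := hlt
      have h5 : (κ + 1) * (κ + 1) ≤ 2 ^ κ * 2 ^ κ := Nat.mul_le_mul h4 h4
      have h6 : 2 ^ κ * 2 ^ κ ≤ (2 ^ κ) ^ 4 := by
        rw [← sq]
        exact Nat.pow_le_pow_right Nat.one_le_two_pow (by norm_num)
      nlinarith

/-- A function bounded by `(C(n+1))^(C(n+1))` does not dominate a function which is at least
`2^(n^2)` for `n ≥ 16`. -/
theorem not_dominated (u : ℕ → ℝ) (v : ℕ → ℕ∞) (hu : ∀ n : ℕ, 16 ≤ n → (2 : ℝ) ^ (n ^ 2) ≤ u n)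
    (C : ℕ) (hC : 1 ≤ C) (hv : ∀ n : ℕ, v n ≤ (((C * (n + 1)) ^ (C * (n + 1)) : ℕ) : ℕ∞)) :
    ¬ Dominated u v := by
  rintro ⟨C', hC', h⟩
  obtain ⟨n, hn, hlt⟩ := beats C C' hC hC'
  have h1 := h n (by omega)
  have h2 : (C' : ENNReal) * (v (C' * n) : ENNReal) ≤
      (C' : ENNReal) * (((C * (C' * n + 1)) ^ (C * (C' * n + 1)) : ℕ) : ENNReal) := by
    gcongr
    have := ENat.toENNReal_mono (hv (C' * n))
    simpa using this
  have h3 : ENNReal.ofReal ((2 : ℝ) ^ (n ^ 2)) ≤ ENNReal.ofReal (u n) :=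
    ENNReal.ofReal_le_ofReal (hu n hn)
  have h4 : ENNReal.ofReal ((2 : ℝ) ^ (n ^ 2)) = (((2 ^ (n ^ 2) : ℕ)) : ENNReal) := by
    have : ((2 : ℝ) ^ (n ^ 2)) = (((2 ^ (n ^ 2) : ℕ)) : ℝ) := by push_cast; rfl
    rw [this, ENNReal.ofReal_natCast]
  have h5 : (((2 ^ (n ^ 2) : ℕ)) : ENNReal) ≤
      ((C' * (C * (C' * n + 1)) ^ (C * (C' * n + 1)) : ℕ) : ENNReal) := by
    rw [← h4]
    refine (h3.trans (h1.trans h2)).trans (le_of_eq ?_)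
    push_cast
    rfl
  have h6 : 2 ^ (n ^ 2) ≤ C' * (C * (C' * n + 1)) ^ (C * (C' * n + 1)) := by exact_mod_cast h5
  omega

lemma two_le_log (n : ℕ) (hn : 16 ≤ n) : (2 : ℝ) ≤ Real.log n := by
  have h1 : Real.log 16 ≤ Real.log n := by
    apply Real.log_le_log (by norm_num)
    exact_mod_cast hn
  have h2 : Real.log 16 = 4 * Real.log 2 := by
    rw [show (16 : ℝ) = 2 ^ 4 by norm_num, Real.log_pow]
    norm_num
  have h3 := Real.log_two_gt_d9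
  linarith

theorem neg1 (p : ℕ) [Fact p.Prime] (k : ℕ) (hk : 2 ≤ k)
    (S : Set (Wreath (ZMod p) (Fin k → ℤ))) (hS : S.Finite) :
    ¬ Dominated (fun n => (2 : ℝ) ^ (n ^ k)) (conjDepth S) := by
  obtain ⟨C, hC, h⟩ := upper_Fp' p k S hS
  apply not_dominated _ _ _ C hC h
  intro n hn
  exact pow_le_pow_right₀ (by norm_num) (Nat.pow_le_pow_right (by omega) hk)

theorem neg2 (k : ℕ) (hk : 2 ≤ k) (S : Set (Wreath ℤ (Fin k → ℤ))) (hS : S.Finite) :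
    ¬ Dominated (fun n => Real.log n ^ (n ^ k)) (conjDepth S) := by
  obtain ⟨C, hC, h⟩ := upper_Z' k S hS
  apply not_dominated _ _ _ C hC h
  intro n hn
  calc (2 : ℝ) ^ (n ^ 2) ≤ 2 ^ (n ^ k) :=
        pow_le_pow_right₀ (by norm_num) (Nat.pow_le_pow_right (by omega) hk)
    _ ≤ Real.log n ^ (n ^ k) := pow_le_pow_left₀ (by norm_num) (two_le_log n hn) _

end Q22CD
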