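import Pool.Agent.Q22.CD.Poly

open Polynomial

namespace Q22CD

lemma zero_of_many {p : ℕ} [Fact p.Prime] {F : Type*} [Field F] [Algebra (ZMod p) F]
    (B : Finset Fˣ) (e : (ZMod p)[X]) (hdeg : e.natDegree < B.card)
    (h : ∀ β ∈ B, aeval (β : F) e = 0) : e = 0 := by
  classical
  have h1 : e.map (algebraMap (ZMod p) F) = 0 := by
    apply eq_zero_of_natDegree_lt_card_of_eval_eq_zero' _
      (B.map ⟨fun u : Fˣ => (u : F), Units.val_injective⟩)
    · intro x hx
      rw [Finset.mem_map] at hx
      obtain ⟨β, hβ, rfl⟩ := hx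
      have := h β hβ
      rwa [aeval_def, ← eval_map] at this
    · rw [Finset.card_map, natDegree_map]
      exact hdeg
  exact (Polynomial.map_eq_zero_iff (algebraMap (ZMod p) F).injective).1 h1

lemma exists_beta {p : ℕ} [Fact p.Prime] (F : Type*) [Field F] [Fintype F]
    [Algebra (ZMod p) F] {m : ℕ} [NeZero m] (s D : ℕ) (hs : (s : ZMod p) ≠ 0)
    (hc : ∀ c : ZMod p, c ≠ 0 → c ^ s = c → c = 1) (f g : ZMod m → (ZMod p)[X])
    (hfd : ∀ r, (f r).natDegree ≤ D) (hgd : ∀ r, (g r).natDegree ≤ D) (hDs : D < s)
    (hq : m * (2 * s * D) + 1 < Fintype.card F)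
    (hne : ∀ (i : ZMod m) (a b : ℕ), ∃ r, X ^ a * f r ≠ X ^ b * g (r - i)) :
    ∃ β : Fˣ, ∀ (i : ZMod m) (γ : F), γ ≠ 0 → ∃ r,
      ¬ (aeval (β : F) (f r) = γ * aeval (β : F) (g (r - i)) ∧
        aeval ((β : F) ^ s) (f r) = γ ^ s * aeval ((β : F) ^ s) (g (r - i))) := by
  classical
  by_contra hcon
  push Not at hcon
  choose i γ hγ heq using hcon
  have hcardU : Fintype.card Fˣ + 1 = Fintype.card F := by
    rw [Fintype.card_units]
    have : 0 < Fintype.card F := Fintype.card_pos
    omega
  obtain ⟨i0, -, hi0⟩ := Finset.exists_lt_card_fiber_of_mul_lt_card_of_maps_to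
    (s := (Finset.univ : Finset Fˣ)) (t := (Finset.univ : Finset (ZMod m))) (f := i)
    (n := 2 * s * D) (fun a _ => Finset.mem_univ _) (by
      rw [Finset.card_univ, Finset.card_univ, ZMod.card]
      omega)
  set B := Finset.univ.filter (fun x : Fˣ => i x = i0) with hB
  have hBi : ∀ β ∈ B, i β = i0 := by
    intro β hβ
    simpa [hB] using hβ
  have hspos : 0 < s := by omega
  have hD2 : 2 * D ≤ 2 * s * D := by nlinarith
  -- identity (1)
  have id1 : ∀ r r', f r * g (r' - i0) = f r' * g (r - i0) := by
    intro r r'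
    have : f r * g (r' - i0) - f r' * g (r - i0) = 0 := by
      apply zero_of_many (F := F) B
      · refine lt_of_le_of_lt ?_ hi0
        refine le_trans (natDegree_sub_le _ _) (max_le ?_ ?_)
        · refine le_trans natDegree_mul_le ?_
          have := hfd r
          have := hgd (r' - i0)
          omega
        · refine le_trans natDegree_mul_le ?_
          have := hfd r'
          have := hgd (r - i0)
          omega
      · intro β hβ
        have e1 := (heq β r).1
        have e2 := (heq β r').1
        rw [hBi β hβ] at e1 e2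
        simp only [map_sub, map_mul, e1, e2]
        ring
    exact sub_eq_zero.1 this
  -- identity (2)
  have id2 : ∀ r, expand _ s (f r) * g (r - i0) ^ s = f r ^ s * expand _ s (g (r - i0)) := by
    intro r
    have : expand _ s (f r) * g (r - i0) ^ s - f r ^ s * expand _ s (g (r - i0)) = 0 := by
      apply zero_of_many (F := F) B
      · refine lt_of_le_of_lt ?_ hi0
        have h1 := hfd r
        have h2 := hgd (r - i0)
        have h3 : (f r).natDegree * s ≤ D * s := Nat.mul_le_mul_right _ h1
        have h4 : (g (r - i0)).natDegree * s ≤ D * s := Nat.mul_le_mul_right _ h2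
        have h5 : 2 * s * D = D * s + D * s := by ring
        refine le_trans (natDegree_sub_le _ _) (max_le ?_ ?_)
        · refine le_trans natDegree_mul_le ?_
          rw [natDegree_expand, natDegree_pow, h5, mul_comm s]
          omega
        · refine le_trans natDegree_mul_le ?_
          rw [natDegree_expand, natDegree_pow, h5, mul_comm s]
          omega
      · intro β hβ
        have e1 := (heq β r).1
        have e2 := (heq β r).2
        rw [hBi β hβ] at e1 e2
        simp only [map_sub, map_mul, map_pow, expand_aeval, e1, e2]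
        ring
    exact sub_eq_zero.1 this
  have hzero : ∀ r, g (r - i0) = 0 → f r = 0 := by
    intro r hr
    apply zero_of_many (F := F) B
    · have := hfd r
      omega
    · intro β hβ
      have e1 := (heq β r).1
      rw [hBi β hβ, hr] at e1
      simpa using e1
  have hzero' : ∀ r, f r = 0 → g (r - i0) = 0 := by
    intro r hr
    apply zero_of_many (F := F) B
    · have := hgd (r - i0)
      omega
    · intro β hβ
      have e1 := (heq β r).1
      rw [hBi β hβ, hr] at e1
      have e2 := hγ β
      simpa [e2] using e1.symm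
  by_cases hall : ∀ r, f r = 0
  · obtain ⟨r, hr⟩ := hne i0 0 0
    apply hr
    rw [hall r, hzero' r (hall r)]
  · push Not at hall
    obtain ⟨r0, hr0⟩ := hall
    have hg0 : g (r0 - i0) ≠ 0 := fun h => hr0 (hzero r0 h)
    obtain ⟨a, b, hab⟩ := core hs hc (f r0) (g (r0 - i0)) hr0 hg0
      (lt_of_le_of_lt (hfd r0) hDs) (lt_of_le_of_lt (hgd _) hDs) (id2 r0)
    obtain ⟨r, hr⟩ := hne i0 a b
    apply hr
    apply mul_left_cancel₀ hr0
    have h1 := id1 r r0
    calc f r0 * (X ^ a * f r) = (X ^ a * f r0) * f r := by ring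
      _ = X ^ b * (f r * g (r0 - i0)) := by rw [hab]; ring
      _ = X ^ b * (f r0 * g (r - i0)) := by rw [h1]
      _ = f r0 * (X ^ b * g (r - i0)) := by ring

end Q22CD
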