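import Mathlib

namespace Q22CD

/-- The shift of a finitely supported function `f : A → R` by `a`: `(shift a f) (a + b) = f b`. -/
noncomputable def shift {R A : Type} [AddCommGroup R] [AddCommGroup A] (a : A) (f : A →₀ R) :
    A →₀ R :=
  f.mapDomain (fun b => a + b)

/-- The restricted wreath product `R ≀ A` of abelian groups: pairs (finitely supported function
`A → R`, element of `A`). -/
@[ext] structure Wreath (R A : Type) [AddCommGroup R] [AddCommGroup A] where
  lamp : A →₀ R
  pos : A

section
variable {R A : Type} [AddCommGroup R] [AddCommGroup A]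

lemma shift_add (a : A) (f g : A →₀ R) : shift a (f + g) = shift a f + shift a g :=
  Finsupp.mapDomain_add

lemma shift_zero (a : A) : shift a (0 : A →₀ R) = 0 := Finsupp.mapDomain_zero

lemma shift_shift (a b : A) (f : A →₀ R) : shift a (shift b f) = shift (a + b) f := by
  unfold shift
  rw [← Finsupp.mapDomain_comp]
  congr 1
  funext x
  simp [add_assoc]

lemma shift_by_zero (f : A →₀ R) : shift 0 f = f := by
  unfold shift
  have : (fun b : A => 0 + b) = id := by funext x; simp
  rw [this, Finsupp.mapDomain_id]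

lemma shift_single (a b : A) (c : R) : shift a (Finsupp.single b c) = Finsupp.single (a + b) c :=
  Finsupp.mapDomain_single

lemma shift_neg (a : A) (f : A →₀ R) : shift a (-f) = -shift a f := by
  have : shift a (-f) + shift a f = 0 := by rw [← shift_add, neg_add_cancel, shift_zero]
  exact eq_neg_of_add_eq_zero_left this

lemma shift_apply (a : A) (f : A →₀ R) (x : A) : shift a f (a + x) = f x :=
  Finsupp.mapDomain_apply (add_right_injective a) f x

lemma shift_apply' (a : A) (f : A →₀ R) (x : A) : shift a f x = f (x - a) := by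
  have := shift_apply a f (x - a)
  rwa [add_sub_cancel] at this

end

/-- The group structure: `(f, a) (g, b) = (f + shift a g, a + b)`. -/
noncomputable instance {R A : Type} [AddCommGroup R] [AddCommGroup A] : Group (Wreath R A) where
  mul x y := ⟨x.lamp + shift x.pos y.lamp, x.pos + y.pos⟩
  one := ⟨0, 0⟩
  inv x := ⟨-shift (-x.pos) x.lamp, -x.pos⟩
  mul_assoc x y z := by
    apply Wreath.ext
    · change (x.lamp + shift x.pos y.lamp) + shift (x.pos + y.pos) z.lamp =
        x.lamp + shift x.pos (y.lamp + shift y.pos z.lamp)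
      rw [shift_add, shift_shift, add_assoc]
    · exact add_assoc _ _ _
  one_mul x := by
    apply Wreath.ext
    · change (0 : A →₀ R) + shift 0 x.lamp = x.lamp
      rw [shift_by_zero, zero_add]
    · exact zero_add _
  mul_one x := by
    apply Wreath.ext
    · change x.lamp + shift x.pos 0 = x.lamp
      rw [shift_zero, add_zero]
    · exact add_zero _
  inv_mul_cancel x := by
    apply Wreath.ext
    · change -shift (-x.pos) x.lamp + shift (-x.pos) x.lamp = 0
      exact neg_add_cancel _
    · exact neg_add_cancel _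

section
variable {R A : Type} [AddCommGroup R] [AddCommGroup A]

@[simp] lemma mul_lamp (x y : Wreath R A) : (x * y).lamp = x.lamp + shift x.pos y.lamp := rfl
@[simp] lemma mul_pos' (x y : Wreath R A) : (x * y).pos = x.pos + y.pos := rfl
@[simp] lemma one_lamp : (1 : Wreath R A).lamp = 0 := rfl
@[simp] lemma one_pos : (1 : Wreath R A).pos = 0 := rfl
@[simp] lemma inv_lamp (x : Wreath R A) : (x⁻¹).lamp = -shift (-x.pos) x.lamp := rfl
@[simp] lemma inv_pos' (x : Wreath R A) : (x⁻¹).pos = -x.pos := rfl

end

/-- `g` has word length at most `n` with respect to `S`: it is a product of at most `n` elements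
of `S ∪ S⁻¹`. -/
def InBall {G : Type} [Group G] (S : Set G) (n : ℕ) (g : G) : Prop :=
  ∃ l : List G, l.length ≤ n ∧ (∀ x ∈ l, x ∈ S ∨ x⁻¹ ∈ S) ∧ l.prod = g

/-- `D_G(g,h)`: the least order of a finite quotient in which the images of `g` and `h` are not
conjugate (`⊤` if there is none). -/
noncomputable def depth {G : Type} [Group G] (g h : G) : ℕ∞ :=
  sInf {d : ℕ∞ | ∃ (N : Subgroup G) (_ : N.Normal), N.FiniteIndex ∧
    ¬ IsConj (g : G ⧸ N) (h : G ⧸ N) ∧ d = (N.index : ℕ∞)}

/-- The conjugacy depth function `Conj_G(n)` with respect to `S`. -/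
noncomputable def conjDepth {G : Type} [Group G] (S : Set G) (n : ℕ) : ℕ∞ :=
  sSup {d : ℕ∞ | ∃ g h : G, InBall S n g ∧ InBall S n h ∧ ¬ IsConj g h ∧ d = depth g h}

/-- `u ≼ v`: there is `C > 0` with `u(n) ≤ C v(Cn)` for all `n ≥ 1`. -/
def Dominated (u : ℕ → ℝ) (v : ℕ → ℕ∞) : Prop :=
  ∃ C : ℕ, 0 < C ∧ ∀ n : ℕ, 1 ≤ n →
    ENNReal.ofReal (u n) ≤ (C : ENNReal) * (v (C * n) : ENNReal)

end Q22CD
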