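import Mathlib

namespace Q22CD

lemma digits : ∀ (k : ℕ) (W : ℤ) (e : Fin k → ℤ), (∀ i, |e i| < W) →
    ∑ i : Fin k, W ^ (i : ℕ) * e i = 0 → ∀ i, e i = 0
  | 0, _, _, _, _ => fun i => i.elim0
  | k + 1, W, e, he, hs => by
    rw [Fin.sum_univ_succ] at hs
    simp only [Fin.val_zero, pow_zero, one_mul, Fin.val_succ] at hs
    have h1 : ∑ i : Fin k, W ^ ((i : ℕ) + 1) * e i.succ = W * ∑ i : Fin k, W ^ (i : ℕ) * e i.succ := by
      rw [Finset.mul_sum]
      apply Finset.sum_congr rfl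
      intro i _
      ring
    rw [h1] at hs
    have h0 : e 0 = 0 := by
      apply Int.eq_zero_of_abs_lt_dvd (m := W)
      · exact ⟨-∑ i : Fin k, W ^ (i : ℕ) * e i.succ, by linarith⟩
      · exact he 0
    have hW : W ≠ 0 := by
      have := he 0
      have h3 := abs_nonneg (e 0)
      intro h
      linarith
    have h2 : ∑ i : Fin k, W ^ (i : ℕ) * e i.succ = 0 := by
      rw [h0, zero_add] at hs
      exact (mul_eq_zero.1 hs).resolve_left hW
    have ih := digits k W (fun i => e i.succ) (fun i => he i.succ) h2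
    intro i
    refine Fin.cases h0 ih i

/-- The number with digits `e` in base `W`. -/
noncomputable def kap (k : ℕ) (W : ℤ) : (Fin k → ℤ) →+ ℤ :=
  AddMonoidHom.mk' (fun e => ∑ i : Fin k, W ^ (i : ℕ) * e i) (by
    intro x y
    simp [mul_add, Finset.sum_add_distrib])

lemma kap_apply (k : ℕ) (W : ℤ) (e : Fin k → ℤ) : kap k W e = ∑ i : Fin k, W ^ (i : ℕ) * e i := rfl

lemma kap_bound (k : ℕ) (W : ℤ) (hW : 1 ≤ W) (e : Fin k → ℤ) (E : ℤ) (he : ∀ i, |e i| ≤ E) :
    |kap k W e| ≤ k * W ^ k * E := by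
  rw [kap_apply]
  refine (Finset.abs_sum_le_sum_abs _ _).trans ?_
  have : ∀ i ∈ (Finset.univ : Finset (Fin k)), |W ^ (i : ℕ) * e i| ≤ W ^ k * E := by
    intro i _
    rw [abs_mul, abs_of_nonneg (by positivity : (0 : ℤ) ≤ W ^ (i : ℕ))]
    have h1 : W ^ (i : ℕ) ≤ W ^ k := pow_le_pow_right₀ hW i.2.le
    exact mul_le_mul h1 (he i) (abs_nonneg _) (by positivity)
  refine (Finset.sum_le_sum this).trans ?_
  simp
  rw [mul_assoc]

lemma exists_lam_mu (k : ℕ) (a : Fin k → ℤ) (n : ℕ) (hn : 1 ≤ n) (ha : ∀ i, |a i| ≤ n) :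
    ∃ (m : ℕ) (_ : NeZero m) (lam : (Fin k → ℤ) →+ ZMod m) (mu : (Fin k → ℤ) →+ ℤ),
      m ≤ n ∧ lam a = 0 ∧ mu a = 0 ∧
      (∀ c : Fin k → ℤ, (∀ i, |c i| ≤ 6 * n) → lam c = 0 → mu c = 0 → ∃ t : ℤ, c = t • a) ∧
      (∀ c : Fin k → ℤ, (∀ i, |c i| ≤ n) →
        |mu c| ≤ ((k * (12 * n ^ 2 + 1) ^ k * (2 * n ^ 2) : ℕ) : ℤ)) := by
  have hnz : (1 : ℤ) ≤ n := by exact_mod_cast hn
  have hnn : (n : ℤ) ≤ (n : ℤ) ^ 2 := by nlinarith
  set W : ℤ := 12 * (n : ℤ) ^ 2 + 1 with hW
  have hW1 : 1 ≤ W := by nlinarith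
  by_cases h : ∃ i0, a i0 ≠ 0
  · obtain ⟨i0, hi0⟩ := h
    have hm0 : (a i0).natAbs ≠ 0 := Int.natAbs_ne_zero.2 hi0
    let e : (Fin k → ℤ) →+ (Fin k → ℤ) :=
      AddMonoidHom.mk' (fun c j => a i0 * c j - a j * c i0) (by
        intro x y
        funext j
        simp only [Pi.add_apply]
        ring)
    have he : ∀ c j, e c j = a i0 * c j - a j * c i0 := fun _ _ => rfl
    have hebound : ∀ (c : Fin k → ℤ) (M : ℤ), (∀ i, |c i| ≤ M) → ∀ j, |e c j| ≤ 2 * n * M := by
      intro c M hc j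
      rw [he]
      refine (abs_sub _ _).trans ?_
      rw [abs_mul, abs_mul]
      have h1 : |a i0| * |c j| ≤ n * M :=
        mul_le_mul (ha i0) (hc j) (abs_nonneg _) (by linarith)
      have h2 : |a j| * |c i0| ≤ n * M :=
        mul_le_mul (ha j) (hc i0) (abs_nonneg _) (by linarith)
      linarith
    refine ⟨(a i0).natAbs, ⟨hm0⟩, (Int.castAddHom (ZMod (a i0).natAbs)).comp
      (Pi.evalAddMonoidHom (fun _ : Fin k => ℤ) i0), (kap k W).comp e, ?_, ?_, ?_, ?_, ?_⟩
    · have := ha i0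
      rw [Int.abs_eq_natAbs] at this
      exact_mod_cast this
    · change ((a i0 : ℤ) : ZMod (a i0).natAbs) = 0
      rw [ZMod.intCast_zmod_eq_zero_iff_dvd]
      exact Int.natAbs_dvd.2 dvd_rfl
    · change kap k W (e a) = 0
      have : e a = 0 := by
        funext j
        rw [he]
        change a i0 * a j - a j * a i0 = 0
        ring
      rw [this, map_zero]
    · intro c hc h1 h2
      change ((c i0 : ℤ) : ZMod (a i0).natAbs) = 0 at h1
      change kap k W (e c) = 0 at h2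
      rw [ZMod.intCast_zmod_eq_zero_iff_dvd, Int.natAbs_dvd] at h1
      obtain ⟨t, ht⟩ := h1
      refine ⟨t, ?_⟩
      have h3 := digits k W (e c) (fun i => by
        have := hebound c (6 * n) hc i
        have h4 : 2 * (n : ℤ) * (6 * n) = 12 * (n : ℤ) ^ 2 := by ring
        rw [h4] at this
        linarith) h2
      funext j
      have h4 := h3 j
      rw [he, ht] at h4
      have h5 : a i0 * (c j - t * a j) = 0 := by linear_combination h4
      have h6 := (mul_eq_zero.1 h5).resolve_left hi0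
      rw [Pi.smul_apply, smul_eq_mul]
      linarith
    · intro c hc
      have := kap_bound k W hW1 (e c) (2 * n * n) (hebound c n hc)
      change |kap k W (e c)| ≤ _
      push_cast
      have h4 : 2 * (n : ℤ) * n = 2 * (n : ℤ) ^ 2 := by ring
      rw [h4, hW] at this
      exact this
  · push Not at h
    refine ⟨1, ⟨one_ne_zero⟩, 0, kap k W, hn, rfl, ?_, ?_, ?_⟩
    · have : a = 0 := funext h
      rw [this, map_zero]
    · intro c hc _ h2
      refine ⟨0, ?_⟩
      have h3 := digits k W c (fun i => by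
        have := hc i
        linarith) h2
      funext j
      rw [h3 j]
      simp
    · intro c hc
      have := kap_bound k W hW1 c (2 * n ^ 2) (fun i => by
        have := hc i
        linarith)
      push_cast
      exact this

end Q22CD
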