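import Pool.Agent.Q22.CD.Red
import Pool.Agent.Q22.CD.Lam

open Polynomial

namespace Q22CD

lemma pow_zpow_comm {G : Type*} [Group G] (b : G) (s : ℕ) (j : ℤ) : (b ^ s) ^ j = (b ^ j) ^ s := by
  rw [← zpow_natCast, ← zpow_natCast, ← zpow_mul, ← zpow_mul, mul_comm]

/-- The degree bound. -/
def NN (k n : ℕ) : ℕ := k * (12 * n ^ 2 + 1) ^ k * (2 * n ^ 2)

lemma mapDomain_eq_sum {R A B : Type} [AddCommMonoid R] (τ : A → B) (f : A →₀ R) (x : B) :
    ∃ s : Finset A, f.mapDomain τ x = ∑ y ∈ s, f y := by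
  classical
  refine ⟨f.support.filter (fun y => τ y = x), ?_⟩
  rw [Finsupp.mapDomain, Finsupp.sum_apply, Finsupp.sum, Finset.sum_filter]
  apply Finset.sum_congr rfl
  intro a _
  rw [Finsupp.single_apply]

section
variable {R : Type} [CommRing R] {k p m : ℕ} [Fact p.Prime]

lemma exists_ne (φ : R →+* ZMod p) (n : ℕ)
    (a : Fin k → ℤ) (f g : (Fin k → ℤ) →₀ R)
    (hf : ∀ c ∈ f.support, ∀ i, |c i| ≤ n) (hg : ∀ c ∈ g.support, ∀ i, |c i| ≤ n)
    (hinj : ∀ s t : Finset (Fin k → ℤ), φ (∑ x ∈ s, g x) = φ (∑ x ∈ t, f x) →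
      ∑ x ∈ s, g x = ∑ x ∈ t, f x)
    (hne : ¬ IsConj (⟨f, a⟩ : Wreath R (Fin k → ℤ)) ⟨g, a⟩)
    (lam : (Fin k → ℤ) →+ ZMod m) (mu : (Fin k → ℤ) →+ ℤ) (N : ℕ)
    (hsep : ∀ c : Fin k → ℤ, (∀ i, |c i| ≤ 6 * n) → lam c = 0 → mu c = 0 → ∃ t : ℤ, c = t • a)
    (hbd : ∀ c : Fin k → ℤ, (∀ i, |c i| ≤ n) → |mu c| ≤ N) (i : ZMod m) (a' b' : ℕ) :
    ∃ r, X ^ a' * poly φ lam mu N g r ≠ X ^ b' * poly φ lam mu N f (r - i) := by
  by_contra hcon
  push Not at hcon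
  apply hne
  apply isConj_of_shift (lam.prod mu) a n ?_ f g hf hg (i, (b' : ℤ) - a')
  · rintro ⟨r, t⟩
    obtain ⟨s1, hs1⟩ := mapDomain_eq_sum (lam.prod mu) g (r, t)
    obtain ⟨s2, hs2⟩ := mapDomain_eq_sum (lam.prod mu) f ((r, t) - (i, (b' : ℤ) - a'))
    rw [hs1, hs2]
    apply hinj
    rw [← hs1, ← hs2, Prod.mk_sub_mk]
    have h1 := hcon r
    have h2 := congrArg (fun P => cZ P (t + N + a')) h1
    simp only [cZ_X_pow_mul] at h2
    have e1 : t + (N : ℤ) + a' - a' = t + N := by ring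
    have e2 : t + (N : ℤ) + a' - b' = (t - ((b' : ℤ) - a')) + N := by ring
    rw [e1, e2, cZ_poly, cZ_poly] at h2
    · exact h2
    · intro c hc
      exact hbd c (hf c hc)
    · intro c hc
      exact hbd c (hg c hc)
  · intro c hc h0
    rw [AddMonoidHom.prod_apply, Prod.mk_eq_zero] at h0
    exact hsep c hc h0.1 h0.2

/-- The key bound. -/
theorem depth_bound (φ : R →+* ZMod p) (n : ℕ) (hn : 1 ≤ n)
    (a : Fin k → ℤ) (ha : ∀ i, |a i| ≤ n) (f g : (Fin k → ℤ) →₀ R)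
    (hf : ∀ c ∈ f.support, ∀ i, |c i| ≤ n) (hg : ∀ c ∈ g.support, ∀ i, |c i| ≤ n)
    (hinj : ∀ s t : Finset (Fin k → ℤ), φ (∑ x ∈ s, g x) = φ (∑ x ∈ t, f x) →
      ∑ x ∈ s, g x = ∑ x ∈ t, f x)
    (hne : ¬ IsConj (⟨f, a⟩ : Wreath R (Fin k → ℤ)) ⟨g, a⟩) :
    depth (⟨f, a⟩ : Wreath R (Fin k → ℤ)) ⟨g, a⟩ ≤
      ((((p * (4 * NN k n * n + 1)) ^ (2 * (n + 1)) * n) ^ 2 : ℕ) : ℕ∞) := by
  classical
  obtain ⟨m, hm0, lam, mu, hmn, hl0, hmu0, hsep, hbd⟩ := exists_lam_mu k a n hn ha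
  change ∀ c : Fin k → ℤ, (∀ i, |c i| ≤ n) → |mu c| ≤ ((NN k n : ℕ) : ℤ) at hbd
  set N := NN k n with hN
  have hp : p.Prime := Fact.out
  have hp2 := hp.two_le
  have hmpos : 0 < m := Nat.pos_of_ne_zero (NeZero.ne m)
  set Xn := 4 * N * n + 1 with hXn
  set a0 := Nat.log p Xn + 1 with ha0
  set P := p ^ a0 with hP
  have hP1 : Xn < P := Nat.lt_pow_succ_log_self hp.one_lt Xn
  have hP2 : P ≤ p * Xn := by
    rw [hP, ha0, pow_succ, mul_comm]
    exact Nat.mul_le_mul_left _ (Nat.pow_log_le_self p (by omega))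
  have hNn : N ≤ N * n := Nat.le_mul_of_pos_right N (by omega)
  let F := GaloisField p (2 * a0)
  have : Fintype F := Fintype.ofFinite F
  have hF : Nat.card F = P ^ 2 := by
    have h1 := GaloisField.card p (2 * a0) (by omega)
    change Nat.card F = _ at h1
    rw [h1, hP, ← pow_mul, mul_comm]
  have hF' : Fintype.card F = P ^ 2 := by rw [← Nat.card_eq_fintype_card, hF]
  have hs : ((P + 1 : ℕ) : ZMod p) ≠ 0 := by
    rw [hP]
    push_cast
    rw [ZMod.natCast_self, zero_pow (by omega), zero_add]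
    exact one_ne_zero
  have hc : ∀ c : ZMod p, c ≠ 0 → c ^ (P + 1) = c → c = 1 := by
    intro c hc0 hc1
    rw [pow_succ, hP, ZMod.pow_card_pow] at hc1
    exact mul_left_cancel₀ hc0 (by rw [hc1, mul_one])
  have hfN : ∀ c ∈ f.support, |mu c| ≤ (N : ℤ) := fun c hc' => hbd c (hf c hc')
  have hgN : ∀ c ∈ g.support, |mu c| ≤ (N : ℤ) := fun c hc' => hbd c (hg c hc')
  have hq : m * (2 * (P + 1) * (2 * N)) + 1 < Fintype.card F := by
    rw [hF']
    have h1 : 4 * N * m ≤ 4 * N * n := Nat.mul_le_mul_left _ hmn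
    have h2 : 4 * N * m + 2 ≤ P := by omega
    have h3 : (4 * N * m + 2) * (P + 1) ≤ P * (P + 1) := Nat.mul_le_mul_right _ h2
    nlinarith
  obtain ⟨β, hβ⟩ := exists_beta (p := p) F (m := m) (P + 1) (2 * N) hs hc
    (fun r => poly φ lam mu N g r) (fun r => poly φ lam mu N f r)
    (fun r => poly_natDegree φ lam mu N g hgN r) (fun r => poly_natDegree φ lam mu N f hfN r)
    (by
      have : 4 * N ≤ 4 * N * n := Nat.le_mul_of_pos_right _ (by omega)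
      omega) hq
    (fun i a' b' => exists_ne φ n a f g hf hg hinj hne lam mu N hsep hbd i a' b')
  refine (depth_le_of_theta ((algebraMap (ZMod p) F).comp φ) lam mu β (β ^ (P + 1)) _ _
    hl0 hmu0 ?_).trans ?_
  · intro i j
    obtain ⟨r, hr⟩ := hβ i ((β ^ j : Fˣ) : F) (Units.ne_zero _)
    refine ⟨r, ?_⟩
    rintro ⟨h1, h2⟩
    apply hr
    constructor
    · rw [poly_eval φ lam mu N g hgN β r, poly_eval φ lam mu N f hfN β (r - i)]
      change theta _ lam mu β g r = _ * theta _ lam mu β f (r - i) at h1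
      rw [h1]
      ring
    · have e1 : (β : F) ^ (P + 1) = ((β ^ (P + 1) : Fˣ) : F) := by push_cast; rfl
      rw [e1, poly_eval φ lam mu N g hgN (β ^ (P + 1)) r,
        poly_eval φ lam mu N f hfN (β ^ (P + 1)) (r - i)]
      change theta _ lam mu (β ^ (P + 1)) g r = _ * theta _ lam mu (β ^ (P + 1)) f (r - i) at h2
      rw [h2]
      have e2 : (((β ^ (P + 1)) ^ j : Fˣ) : F) = ((β ^ j : Fˣ) : F) ^ (P + 1) := by
        rw [← Units.val_pow_eq_pow_val]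
        congr 1
        exact pow_zpow_comm β (P + 1) j
      rw [e2]
      ring
  · rw [hF]
    have h1 : (P ^ 2) ^ (m + 1) * m ≤ (p * Xn) ^ (2 * (n + 1)) * n := by
      rw [← pow_mul]
      have h2 : P ^ (2 * (m + 1)) ≤ (p * Xn) ^ (2 * (n + 1)) := by
        calc P ^ (2 * (m + 1)) ≤ P ^ (2 * (n + 1)) :=
              Nat.pow_le_pow_right (by omega) (by omega)
          _ ≤ (p * Xn) ^ (2 * (n + 1)) := Nat.pow_le_pow_left hP2 _
      exact Nat.mul_le_mul h2 hmn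
    exact_mod_cast Nat.pow_le_pow_left h1 2

end

end Q22CD
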