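import Mathlib

open Module

namespace Q22CD

/-- The order of the group of linear automorphisms of `F^D`. -/
noncomputable def glCard (F : Type) [Field F] (D : ℕ) : ℕ :=
  Nat.card ((Fin D → F) ≃ₗ[F] (Fin D → F))

section
variable {F : Type} [Field F] [Finite F]

instance (D : ℕ) : Finite ((Fin D → F) ≃ₗ[F] (Fin D → F)) :=
  Finite.of_injective (fun e => (e : (Fin D → F) → (Fin D → F))) DFunLike.coe_injective

lemma glCard_pos (D : ℕ) : 0 < glCard F D := Nat.card_pos

lemma glCard_le (D : ℕ) : glCard F D ≤ Nat.card F ^ (D * D) := by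
  have h : Function.Injective (fun (e : (Fin D → F) ≃ₗ[F] (Fin D → F)) (i : Fin D) =>
      e (Pi.single i 1)) := by
    intro e e' h
    apply LinearEquiv.toLinearMap_injective
    apply LinearMap.pi_ext'
    intro i
    ext
    have := congrFun h i
    simpa using congrFun this _
  refine (Nat.card_le_card_of_injective _ h).trans ?_
  rw [Nat.card_fun, Nat.card_fun, Nat.card_fin, ← pow_mul]

lemma pow_glCard {D : ℕ} {W : Type} [AddCommGroup W] [Module F W] [FiniteDimensional F W]
    (hW : finrank F W ≤ D) (y : W ≃ₗ[F] W) (w : W) : (y ^ glCard F D : W ≃ₗ[F] W) w = w := by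
  let V1 := W × (Fin (D - finrank F W) → F)
  have hfr : finrank F V1 = finrank F (Fin D → F) := by
    rw [finrank_prod, finrank_fin_fun, finrank_fin_fun]
    omega
  let φ : V1 ≃ₗ[F] (Fin D → F) := LinearEquiv.ofFinrankEq _ _ hfr
  have hcard : Nat.card (V1 ≃ₗ[F] V1) = glCard F D := by
    apply Nat.card_congr
    exact
      { toFun := fun e => φ.symm.trans (e.trans φ)
        invFun := fun e => φ.trans (e.trans φ.symm)
        left_inv := by intro e; ext <;> simp
        right_inv := by intro e; ext; simp }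
  let Y : V1 ≃ₗ[F] V1 := LinearEquiv.prodCongr y (LinearEquiv.refl F _)
  have hY : Y ^ glCard F D = 1 := by
    rw [← hcard]
    exact pow_card_eq_one'
  have hpow : ∀ (n : ℕ) (w : W), (Y ^ n : V1 ≃ₗ[F] V1) (w, 0) = ((y ^ n : W ≃ₗ[F] W) w, 0) := by
    intro n
    induction n with
    | zero => intro w; simp
    | succ n ih =>
      intro w
      rw [pow_succ, pow_succ, LinearEquiv.mul_apply, LinearEquiv.mul_apply, ← ih]
      rfl
  have h1 := hpow (glCard F D) w
  rw [hY] at h1
  exact (congrArg Prod.fst h1).symm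

/-- For a nilpotent operator `z`, `z^m = 0`: `dim V ≥ m · dim (z^(m-1) V)`. -/
lemma finrank_ge {V : Type} [AddCommGroup V] [Module F V] [FiniteDimensional F V]
    (z : V →ₗ[F] V) (m : ℕ) (hm : 1 ≤ m) (hz : z ^ m = 0) :
    m * finrank F (LinearMap.range (z ^ (m - 1))) ≤ finrank F V := by
  set d := finrank F (LinearMap.range (z ^ (m - 1))) with hd
  have step : ∀ i, i + 1 ≤ m → finrank F (LinearMap.range (z ^ (i + 1))) + d ≤
      finrank F (LinearMap.range (z ^ i)) := by
    intro i hi
    set U := LinearMap.range (z ^ i) with hU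
    have h1 := LinearMap.finrank_range_add_finrank_ker (z.domRestrict U)
    have h2 : LinearMap.range (z.domRestrict U) = LinearMap.range (z ^ (i + 1)) := by
      rw [LinearMap.range_domRestrict, hU, ← LinearMap.range_comp, pow_succ', Module.End.mul_eq_comp]
    have h3 : d ≤ finrank F (LinearMap.ker (z.domRestrict U)) := by
      rw [← Submodule.finrank_map_subtype_eq]
      apply Submodule.finrank_mono
      rintro _ ⟨v, rfl⟩
      rw [Submodule.mem_map]
      have hmem : (z ^ (m - 1)) v ∈ U := by
        rw [hU]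
        refine ⟨(z ^ (m - 1 - i)) v, ?_⟩
        rw [← Module.End.mul_apply, ← pow_add]
        congr 2
        omega
      refine ⟨⟨(z ^ (m - 1)) v, hmem⟩, ?_, rfl⟩
      rw [LinearMap.mem_ker, LinearMap.domRestrict_apply]
      change z ((z ^ (m - 1)) v) = 0
      rw [← Module.End.mul_apply, ← pow_succ']
      have : m - 1 + 1 = m := by omega
      rw [this, hz]
      rfl
    rw [h2] at h1
    omega
  have key : ∀ j, j ≤ m → j * d ≤ finrank F (LinearMap.range (z ^ (m - j))) := by
    intro j
    induction j with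
    | zero => intro _; simp
    | succ j ih =>
      intro hj
      have h1 := ih (by omega)
      have h2 := step (m - (j + 1)) (by omega)
      have h3 : m - (j + 1) + 1 = m - j := by omega
      rw [h3] at h2
      rw [add_mul, one_mul]
      omega
  have h1 := key m le_rfl
  refine h1.trans ?_
  exact Submodule.finrank_le _

/-- `(x - 1)^(p^v - 1) = ∑_{j < p^v} x^j` in characteristic `p`. -/
lemma geom_eq {p : ℕ} [Fact p.Prime] {V : Type} [AddCommGroup V] [Module (ZMod p) V]
    (x : Module.End (ZMod p) V) (v : ℕ) :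
    (x - 1) ^ (p ^ v - 1) = ∑ j ∈ Finset.range (p ^ v), x ^ j := by
  open Polynomial in
  have h : ((X : (ZMod p)[X]) - 1) ^ (p ^ v - 1) = ∑ j ∈ Finset.range (p ^ v), X ^ j := by
    have hne : (X : (ZMod p)[X]) - 1 ≠ 0 := by
      have := X_sub_C_ne_zero (1 : ZMod p)
      simpa using this
    apply mul_right_cancel₀ hne
    rw [geom_sum_mul, ← pow_succ]
    have h1 : p ^ v - 1 + 1 = p ^ v := by
      have : 0 < p ^ v := pow_pos (Fact.out : p.Prime).pos v
      omega
    rw [h1, sub_pow_char_pow, one_pow]
  have h2 := congrArg (Polynomial.aeval x) h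
  simpa using h2

/-- The main linear algebra lemma. -/
theorem card_ge {p : ℕ} [Fact p.Prime] {V : Type} [AddCommGroup V] [Module (ZMod p) V] [Finite V]
    (x y : Module.End (ZMod p) V) (hxy : x * y = y * x) (hy : Function.Injective y) (v D : ℕ)
    (hx : x ^ (p ^ v) = 1) (v0 : V)
    (hne : (y ^ glCard (ZMod p) D) ((∑ j ∈ Finset.range (p ^ v), x ^ j) v0) ≠
      (∑ j ∈ Finset.range (p ^ v), x ^ j) v0) : p ^ ((D + 1) * p ^ v) ≤ Nat.card V := by
  have hp : p.Prime := Fact.out
  have : FiniteDimensional (ZMod p) V := Module.Finite.of_finite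
  have hm : 0 < p ^ v := pow_pos hp.pos v
  set z := x - 1 with hz
  rw [← geom_eq x v] at hne
  have hzm : z ^ (p ^ v) = 0 := by
    have h1 : (x - 1) ^ (p ^ v) = (x - 1) ^ (p ^ v - 1) * (x - 1) := by
      rw [← pow_succ]; congr 1; omega
    rw [hz, h1, geom_eq, geom_sum_mul, hx, sub_self]
  have hrank := finrank_ge (F := ZMod p) z (p ^ v) hm hzm
  set U := LinearMap.range (z ^ (p ^ v - 1)) with hU
  have hcomm : Commute y (z ^ (p ^ v - 1)) := by
    apply Commute.pow_right
    rw [hz]
    apply Commute.sub_right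
    · exact hxy.symm
    · exact Commute.one_right y
  have hinv : ∀ u ∈ U, y u ∈ U := by
    rintro _ ⟨w, rfl⟩
    refine ⟨y w, ?_⟩
    rw [← Module.End.mul_apply, ← Module.End.mul_apply, hcomm.eq]
  have hD : D + 1 ≤ finrank (ZMod p) U := by
    by_contra hcon
    have hle : finrank (ZMod p) U ≤ D := by omega
    let yU : U →ₗ[ZMod p] U := y.restrict hinv
    have hyU : Function.Injective yU := by
      intro a b hab
      apply Subtype.ext
      apply hy
      have := congrArg Subtype.val hab
      exact this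
    let e : U ≃ₗ[ZMod p] U := LinearEquiv.ofInjectiveEndo yU hyU
    have hpow : ∀ (n : ℕ) (u : U), (((e ^ n : U ≃ₗ[ZMod p] U) u : U) : V) = (y ^ n) (u : V) := by
      intro n
      induction n with
      | zero => intro u; rfl
      | succ n ih =>
        intro u
        rw [pow_succ, pow_succ, LinearEquiv.mul_apply, Module.End.mul_apply, ih]
        rfl
    have h1 := pow_glCard hle e ⟨(z ^ (p ^ v - 1)) v0, ⟨v0, rfl⟩⟩
    have h2 := congrArg Subtype.val h1
    rw [hpow] at h2
    exact hne h2
  have h5 : (D + 1) * p ^ v ≤ finrank (ZMod p) V := by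
    calc (D + 1) * p ^ v ≤ finrank (ZMod p) U * p ^ v := Nat.mul_le_mul_right _ hD
      _ = p ^ v * finrank (ZMod p) U := mul_comm _ _
      _ ≤ _ := hrank
  have h6 : Nat.card V = p ^ finrank (ZMod p) V := by
    rw [Module.natCard_eq_pow_finrank (K := ZMod p), Nat.card_zmod]
  rw [h6]
  exact Nat.pow_le_pow_right hp.pos h5

end

end Q22CD
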