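import Pool.Agent.Q22.CD.Red
import Pool.Agent.Q22.CD.Lin

open Module

namespace Q22CD

section
variable {p : ℕ} [Fact p.Prime] {A : Type} [AddCommGroup A]

/-- The shift as a linear map. -/
noncomputable def X (c : A) : Module.End (ZMod p) (A →₀ ZMod p) :=
  Finsupp.lmapDomain (ZMod p) (ZMod p) (fun b => c + b)

lemma X_apply (c : A) (f : A →₀ ZMod p) : X c f = shift c f := rfl

lemma X_mul (c d : A) : (X c * X d : Module.End (ZMod p) (A →₀ ZMod p)) = X (c + d) := by
  apply LinearMap.ext
  intro f
  exact shift_shift c d f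

lemma X_zero : (X (0 : A) : Module.End (ZMod p) (A →₀ ZMod p)) = 1 := by
  apply LinearMap.ext
  intro f
  exact shift_by_zero f

lemma X_pow (c : A) (n : ℕ) : (X c : Module.End (ZMod p) (A →₀ ZMod p)) ^ n = X (n • c) := by
  induction n with
  | zero => rw [pow_zero, zero_smul, X_zero]
  | succ n ih => rw [pow_succ, ih, X_mul, succ_nsmul]

/-- Lower bound for the index of a normal subgroup which separates `(0, m e₁)` and
`(g, m e₁)`, `g = (X^{K e₂} - 1)(1 + X^{e₁} + ... + X^{(m-1) e₁})`. -/
theorem index_ge (e1 e2 : A) (v D : ℕ) (N : Subgroup (Wreath (ZMod p) A)) [hN : N.Normal]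
    [N.FiniteIndex]
    (hsep : ¬ IsConj ((⟨0, (p ^ v) • e1⟩ : Wreath (ZMod p) A) : Wreath (ZMod p) A ⧸ N)
      ((⟨shift (glCard (ZMod p) D • e2)
          (∑ j ∈ Finset.range (p ^ v), Finsupp.single (j • e1) (1 : ZMod p)) -
          ∑ j ∈ Finset.range (p ^ v), Finsupp.single (j • e1) (1 : ZMod p), (p ^ v) • e1⟩ :
          Wreath (ZMod p) A) : Wreath (ZMod p) A ⧸ N)) :
    p ^ ((D + 1) * p ^ v) ≤ N.index := by
  classical
  set a : A := (p ^ v) • e1 with ha
  set K := glCard (ZMod p) D with hK
  set u : A →₀ ZMod p := ∑ j ∈ Finset.range (p ^ v), Finsupp.single (j • e1) (1 : ZMod p) with hu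
  -- the embedding of the base group
  let I : AddSubgroup (A →₀ ZMod p) :=
    { carrier := {f | (⟨f, 0⟩ : Wreath (ZMod p) A) ∈ N}
      zero_mem' := N.one_mem
      add_mem' := by
        intro f g hf hg
        have h1 := N.mul_mem hf hg
        have h2 : (⟨f, 0⟩ : Wreath (ZMod p) A) * ⟨g, 0⟩ = ⟨f + g, 0⟩ := by
          apply Wreath.ext
          · change f + shift 0 g = f + g
            rw [shift_by_zero]
          · exact add_zero _
        rwa [h2] at h1
      neg_mem' := by
        intro f hf
        have h1 := N.inv_mem hf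
        have h2 : (⟨f, 0⟩ : Wreath (ZMod p) A)⁻¹ = ⟨-f, 0⟩ := by
          apply Wreath.ext
          · change -shift (-0) f = -f
            rw [neg_zero, shift_by_zero]
          · exact neg_zero
        rwa [h2] at h1 }
  have hIshift : ∀ (c : A) (f : A →₀ ZMod p), f ∈ I → shift c f ∈ I := by
    intro c f hf
    have h1 := hN.conj_mem _ hf ⟨0, c⟩
    have h2 : (⟨0, c⟩ : Wreath (ZMod p) A) * ⟨f, 0⟩ * ⟨0, c⟩⁻¹ = ⟨shift c f, 0⟩ := by
      rw [mul_inv_eq_iff_eq_mul]
      apply Wreath.ext
      · change 0 + shift c f = shift c f + shift 0 0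
        rw [shift_zero, add_zero, zero_add]
      · change c + 0 = 0 + c
        rw [add_comm]
    rwa [h2] at h1
  let J0 : AddSubgroup (A →₀ ZMod p) := I ⊔ (diffHom (R := ZMod p) a).range
  let J : Submodule (ZMod p) (A →₀ ZMod p) := AddSubgroup.toZModSubmodule p J0
  have hJmem : ∀ f, f ∈ J ↔ f ∈ J0 := fun f => Iff.rfl
  have hJshift : ∀ (c : A) (f : A →₀ ZMod p), f ∈ J → X c f ∈ J := by
    intro c f hf
    rw [hJmem] at hf ⊢
    obtain ⟨f1, hf1, f2, hf2, rfl⟩ := AddSubgroup.mem_sup.1 hf
    obtain ⟨h, rfl⟩ := hf2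
    rw [map_add]
    apply AddSubgroup.add_mem
    · exact AddSubgroup.mem_sup_left (hIshift c f1 hf1)
    · apply AddSubgroup.mem_sup_right
      refine ⟨shift c h, ?_⟩
      change shift c h - shift a (shift c h) = shift c (h - shift a h)
      rw [sub_eq_add_neg h, shift_add, shift_neg, shift_shift, shift_shift, add_comm a c,
        sub_eq_add_neg]
  -- g is not in J
  have hg : shift (K • e2) u - u ∉ J := by
    intro hmem
    rw [hJmem] at hmem
    obtain ⟨f1, hf1, f2, ⟨h, rfl⟩, hsum⟩ := AddSubgroup.mem_sup.1 hmem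
    apply hsep
    rw [isConj_iff]
    refine ⟨((⟨h, 0⟩ : Wreath (ZMod p) A) : Wreath (ZMod p) A ⧸ N), ?_⟩
    have h1 : (⟨h, 0⟩ : Wreath (ZMod p) A) * ⟨0, a⟩ * ⟨h, 0⟩⁻¹ = ⟨h - shift a h, a⟩ := by
      rw [mul_inv_eq_iff_eq_mul]
      apply Wreath.ext
      · change h + shift 0 0 = (h - shift a h) + shift a h
        rw [shift_zero]
        abel
      · change 0 + a = a + 0
        rw [add_comm]
    have h2 : (⟨shift (K • e2) u - u, a⟩ : Wreath (ZMod p) A) =
        ⟨f1, 0⟩ * ((⟨h, 0⟩ : Wreath (ZMod p) A) * ⟨0, a⟩ * ⟨h, 0⟩⁻¹) := by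
      rw [h1, ← hsum]
      apply Wreath.ext
      · change f1 + (h - shift a h) = f1 + shift 0 (h - shift a h)
        rw [shift_by_zero]
      · exact (zero_add a).symm
    rw [h2]
    rw [QuotientGroup.mk_mul, (QuotientGroup.eq_one_iff _).2 hf1, one_mul]
    rfl
  -- V is finite with at most `N.index` elements
  let V := (A →₀ ZMod p) ⧸ J
  have hinj : Function.Injective (fun w : V =>
      ((⟨Quotient.out w, 0⟩ : Wreath (ZMod p) A) : Wreath (ZMod p) A ⧸ N)) := by
    intro w w' hww
    have h1 : ((⟨Quotient.out w, 0⟩ : Wreath (ZMod p) A) : Wreath (ZMod p) A ⧸ N) =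
      ((⟨Quotient.out w', 0⟩ : Wreath (ZMod p) A) : Wreath (ZMod p) A ⧸ N) := hww
    rw [QuotientGroup.eq] at h1
    have h2 : (⟨Quotient.out w, 0⟩ : Wreath (ZMod p) A)⁻¹ * ⟨Quotient.out w', 0⟩ =
        ⟨-Quotient.out w + Quotient.out w', 0⟩ := by
      rw [inv_mul_eq_iff_eq_mul]
      apply Wreath.ext
      · change Quotient.out w' = Quotient.out w + shift 0 (-Quotient.out w + Quotient.out w')
        rw [shift_by_zero]
        abel
      · exact (add_zero _).symm
    rw [h2] at h1
    have h3 : -Quotient.out w + Quotient.out w' ∈ J := AddSubgroup.mem_sup_left h1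
    have h4 : (Submodule.Quotient.mk (Quotient.out w) : V) =
        Submodule.Quotient.mk (Quotient.out w') := by
      rw [Submodule.Quotient.eq]
      have := J.neg_mem h3
      have h5 : -(-Quotient.out w + Quotient.out w') = Quotient.out w - Quotient.out w' := by abel
      rwa [h5] at this
    have h6 : ∀ w : V, (Submodule.Quotient.mk (Quotient.out w) : V) = w := fun w =>
      Quotient.out_eq' w
    rw [h6, h6] at h4
    exact h4
  have hGfin : Finite (Wreath (ZMod p) A ⧸ N) := inferInstance
  have hVfin : Finite V := Finite.of_injective _ hinj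
  have hcard : Nat.card V ≤ N.index := Nat.card_le_card_of_injective _ hinj
  refine le_trans ?_ hcard
  -- the operators
  let x : Module.End (ZMod p) V := J.mapQ J (X e1) (fun f hf => hJshift e1 f hf)
  let y : Module.End (ZMod p) V := J.mapQ J (X e2) (fun f hf => hJshift e2 f hf)
  let y' : Module.End (ZMod p) V := J.mapQ J (X (-e2)) (fun f hf => hJshift (-e2) f hf)
  have hxmk : ∀ (n : ℕ) (f : A →₀ ZMod p), (x ^ n) (Submodule.Quotient.mk f : V) =
      Submodule.Quotient.mk (shift (n • e1) f) := by
    intro n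
    induction n with
    | zero => intro f; rw [pow_zero, zero_smul, shift_by_zero]; rfl
    | succ n ih =>
      intro f
      rw [pow_succ, Module.End.mul_apply]
      change (x ^ n) (Submodule.Quotient.mk (shift e1 f) : V) = _
      rw [ih, shift_shift, succ_nsmul]
  have hymk : ∀ (n : ℕ) (f : A →₀ ZMod p), (y ^ n) (Submodule.Quotient.mk f : V) =
      Submodule.Quotient.mk (shift (n • e2) f) := by
    intro n
    induction n with
    | zero => intro f; rw [pow_zero, zero_smul, shift_by_zero]; rfl
    | succ n ih =>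
      intro f
      rw [pow_succ, Module.End.mul_apply]
      change (y ^ n) (Submodule.Quotient.mk (shift e2 f) : V) = _
      rw [ih, shift_shift, succ_nsmul]
  have hxy : x * y = y * x := by
    apply LinearMap.ext
    intro w
    obtain ⟨f, rfl⟩ := Submodule.Quotient.mk_surjective J w
    change (Submodule.Quotient.mk (shift e1 (shift e2 f)) : V) =
      Submodule.Quotient.mk (shift e2 (shift e1 f))
    rw [shift_shift, shift_shift, add_comm]
  have hyinj : Function.Injective y := by
    have : ∀ w, y' (y w) = w := by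
      intro w
      obtain ⟨f, rfl⟩ := Submodule.Quotient.mk_surjective J w
      change (Submodule.Quotient.mk (shift (-e2) (shift e2 f)) : V) = Submodule.Quotient.mk f
      rw [shift_shift, neg_add_cancel, shift_by_zero]
    exact Function.LeftInverse.injective this
  have hx1 : x ^ (p ^ v) = 1 := by
    apply LinearMap.ext
    intro w
    obtain ⟨f, rfl⟩ := Submodule.Quotient.mk_surjective J w
    rw [hxmk, Module.End.one_apply, Submodule.Quotient.eq]
    have h1 : f - shift a f ∈ J := AddSubgroup.mem_sup_right ⟨f, rfl⟩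
    have h2 := J.neg_mem h1
    rwa [neg_sub] at h2
  have hsumv : (∑ j ∈ Finset.range (p ^ v), x ^ j)
      (Submodule.Quotient.mk (Finsupp.single 0 (1 : ZMod p)) : V) = Submodule.Quotient.mk u := by
    rw [LinearMap.sum_apply]
    simp only [hxmk, shift_single, add_zero]
    rw [hu]
    exact (map_sum (Submodule.mkQ J) _ _).symm
  apply card_ge x y hxy hyinj v D hx1 (Submodule.Quotient.mk (Finsupp.single 0 (1 : ZMod p)))
  rw [hsumv, hymk, ← hK]
  intro h
  rw [Submodule.Quotient.eq] at h
  exact hg h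

end

end Q22CD
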