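import Pool.Agent.Q22.CD.Low

namespace Q22CD

/-! ### Balls -/

section
variable {G : Type} [Group G] {S : Set G}

lemma InBall.mono {n m : ℕ} (h : n ≤ m) {g : G} (hg : InBall S n g) : InBall S m g := by
  obtain ⟨l, h1, h2, h3⟩ := hg
  exact ⟨l, h1.trans h, h2, h3⟩

lemma InBall.mul {n m : ℕ} {g h : G} (hg : InBall S n g) (hh : InBall S m h) :
    InBall S (n + m) (g * h) := by
  obtain ⟨l, h1, h2, h3⟩ := hg
  obtain ⟨l', h1', h2', h3'⟩ := hh
  refine ⟨l ++ l', ?_, ?_, ?_⟩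
  · rw [List.length_append]; omega
  · intro x hx
    rcases List.mem_append.1 hx with hx | hx
    · exact h2 x hx
    · exact h2' x hx
  · rw [List.prod_append, h3, h3']

lemma InBall.one : InBall S 0 (1 : G) := ⟨[], le_rfl, by simp, rfl⟩

lemma InBall.inv {n : ℕ} {g : G} (hg : InBall S n g) : InBall S n g⁻¹ := by
  obtain ⟨l, h1, h2, h3⟩ := hg
  refine ⟨(l.map (fun x => x⁻¹)).reverse, ?_, ?_, ?_⟩
  · simpa using h1
  · intro x hx
    rw [List.mem_reverse, List.mem_map] at hx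
    obtain ⟨y, hy, rfl⟩ := hx
    rcases h2 y hy with h | h
    · right; rwa [inv_inv]
    · left; exact h
  · rw [← List.prod_inv_reverse, h3]

lemma InBall.pow {n : ℕ} {g : G} (hg : InBall S n g) (m : ℕ) : InBall S (n * m) (g ^ m) := by
  induction m with
  | zero => simpa using InBall.one
  | succ m ih =>
    rw [pow_succ, mul_add, mul_one]
    exact ih.mul hg

lemma exists_inBall (hS : Subgroup.closure S = ⊤) (g : G) : ∃ n, InBall S n g := by
  have hg : g ∈ (Subgroup.closure S).toSubmonoid := by rw [hS]; trivial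
  rw [Subgroup.closure_toSubmonoid] at hg
  obtain ⟨l, hl, hp⟩ := Submonoid.exists_list_of_mem_closure hg
  exact ⟨l.length, l, le_rfl, hl, hp⟩

lemma conjDepth_mono {n m : ℕ} (h : n ≤ m) : conjDepth S n ≤ conjDepth S m := by
  apply sSup_le_sSup
  rintro d ⟨g, g', h1, h2, h3, h4⟩
  exact ⟨g, g', h1.mono h, h2.mono h, h3, h4⟩

end

section
variable {p : ℕ} [Fact p.Prime] {A : Type} [AddCommGroup A]

lemma word1 (c : A) (n : ℕ) : (⟨0, c⟩ : Wreath (ZMod p) A) ^ n = ⟨0, n • c⟩ := by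
  induction n with
  | zero => rw [pow_zero, zero_smul]; rfl
  | succ n ih =>
    rw [pow_succ, ih]
    apply Wreath.ext
    · change 0 + shift (n • c) 0 = 0
      rw [shift_zero, add_zero]
    · change n • c + c = (n + 1) • c
      rw [succ_nsmul]

lemma word2 (c : A) (r : ZMod p) (n : ℕ) :
    ((⟨Finsupp.single 0 r, 0⟩ : Wreath (ZMod p) A) * ⟨0, c⟩) ^ n =
      ⟨∑ j ∈ Finset.range n, Finsupp.single (j • c) r, n • c⟩ := by
  induction n with
  | zero => rw [pow_zero, zero_smul, Finset.sum_range_zero]; rfl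
  | succ n ih =>
    rw [pow_succ, ih]
    apply Wreath.ext
    · change (∑ j ∈ Finset.range n, Finsupp.single (j • c) r) +
        shift (n • c) (Finsupp.single 0 r + shift 0 0) = _
      rw [shift_zero, add_zero, shift_single, add_zero, Finset.sum_range_succ]
    · change n • c + (0 + c) = (n + 1) • c
      rw [zero_add, succ_nsmul]

lemma word3 (e1 e2 : A) (K m : ℕ) :
    (⟨0, e2⟩ : Wreath (ZMod p) A) ^ K * ((⟨Finsupp.single 0 1, 0⟩ : Wreath (ZMod p) A) *
      ⟨0, e1⟩) ^ m * ((⟨0, e1⟩ : Wreath (ZMod p) A) ^ m)⁻¹ * ((⟨0, e2⟩ : Wreath (ZMod p) A) ^ K)⁻¹ *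
      ((⟨Finsupp.single 0 1, 0⟩ : Wreath (ZMod p) A)⁻¹ * ⟨0, e1⟩) ^ m =
    ⟨shift (K • e2) (∑ j ∈ Finset.range m, Finsupp.single (j • e1) (1 : ZMod p)) -
      ∑ j ∈ Finset.range m, Finsupp.single (j • e1) (1 : ZMod p), m • e1⟩ := by
  have h1 : (⟨Finsupp.single 0 1, 0⟩ : Wreath (ZMod p) A)⁻¹ = ⟨Finsupp.single 0 (-1), 0⟩ := by
    apply Wreath.ext
    · change -shift (-0) (Finsupp.single 0 1) = Finsupp.single 0 (-1)
      rw [neg_zero, shift_by_zero, Finsupp.single_neg]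
    · exact neg_zero
  rw [h1, word1, word1, word2, word2]
  set u := ∑ j ∈ Finset.range m, Finsupp.single (j • e1) (1 : ZMod p) with hu
  have hneg : ∑ j ∈ Finset.range m, Finsupp.single (j • e1) (-1 : ZMod p) = -u := by
    rw [hu, ← Finset.sum_neg_distrib]
    apply Finset.sum_congr rfl
    intro j _
    rw [Finsupp.single_neg]
  rw [hneg]
  have h2 : (⟨0, m • e1⟩ : Wreath (ZMod p) A)⁻¹ = ⟨0, -(m • e1)⟩ := by
    apply Wreath.ext
    · change -shift (-(m • e1)) 0 = 0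
      rw [shift_zero, neg_zero]
    · rfl
  have h3 : (⟨0, K • e2⟩ : Wreath (ZMod p) A)⁻¹ = ⟨0, -(K • e2)⟩ := by
    apply Wreath.ext
    · change -shift (-(K • e2)) 0 = 0
      rw [shift_zero, neg_zero]
    · rfl
  rw [h2, h3]
  apply Wreath.ext
  · change (((0 + shift (K • e2) u) + shift (K • e2 + m • e1) 0) +
      shift (K • e2 + m • e1 + -(m • e1)) 0) +
      shift (K • e2 + m • e1 + -(m • e1) + -(K • e2)) (-u) = shift (K • e2) u - u
    have h4 : K • e2 + m • e1 + -(m • e1) + -(K • e2) = 0 := by abel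
    rw [h4, shift_zero, shift_zero, shift_by_zero]
    abel
  · change K • e2 + m • e1 + -(m • e1) + -(K • e2) + m • e1 = m • e1
    abel

end

section
variable {p : ℕ} [Fact p.Prime] {k : ℕ}

/-- A functional which is invariant under the shift by `m e₁`. -/
noncomputable def psi (i1 i2 : Fin k) (m : ℕ) : ((Fin k → ℤ) →₀ ZMod p) →+ ZMod p :=
  Finsupp.liftAddHom fun c =>
    if c i2 = 0 ∧ (m : ℤ) ∣ c i1 then AddMonoidHom.id (ZMod p) else 0

lemma psi_single (i1 i2 : Fin k) (m : ℕ) (c : Fin k → ℤ) (r : ZMod p) :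
    psi i1 i2 m (Finsupp.single c r) = if c i2 = 0 ∧ (m : ℤ) ∣ c i1 then r else 0 := by
  unfold psi
  rw [Finsupp.liftAddHom_apply_single]
  by_cases h : c i2 = 0 ∧ (m : ℤ) ∣ c i1
  · rw [if_pos h, if_pos h]; rfl
  · rw [if_neg h, if_neg h]; rfl

lemma psi_shift (i1 i2 : Fin k) (h12 : i1 ≠ i2) (m : ℕ) (f : (Fin k → ℤ) →₀ ZMod p) :
    psi i1 i2 m (shift (m • Pi.single i1 (1 : ℤ)) f) = psi i1 i2 m f := by
  induction f using Finsupp.induction_linear with
  | zero => rw [shift_zero]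
  | add f g hf hg => rw [shift_add, map_add, map_add, hf, hg]
  | single c r =>
    rw [shift_single, psi_single, psi_single]
    have e1 : (m • Pi.single i1 (1 : ℤ) + c : Fin k → ℤ) i2 = c i2 := by
      simp [h12.symm]
    have e2 : (m • Pi.single i1 (1 : ℤ) + c : Fin k → ℤ) i1 = m + c i1 := by
      simp
    rw [e1, e2]
    have e3 : ((m : ℤ) ∣ m + c i1) ↔ (m : ℤ) ∣ c i1 := by
      rw [dvd_add_right (dvd_refl _)]
    simp only [e3]

lemma not_conj (i1 i2 : Fin k) (h12 : i1 ≠ i2) (m K : ℕ) (hm : 0 < m) (hK : 0 < K) :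
    ¬ IsConj (⟨0, m • Pi.single i1 (1 : ℤ)⟩ : Wreath (ZMod p) (Fin k → ℤ))
      ⟨shift (K • Pi.single i2 (1 : ℤ))
        (∑ j ∈ Finset.range m, Finsupp.single (j • Pi.single i1 (1 : ℤ)) (1 : ZMod p)) -
        ∑ j ∈ Finset.range m, Finsupp.single (j • Pi.single i1 (1 : ℤ)) (1 : ZMod p),
        m • Pi.single i1 (1 : ℤ)⟩ := by
  intro hc
  obtain ⟨z, hz⟩ := isConj_iff.1 hc
  rw [mul_inv_eq_iff_eq_mul] at hz
  have h1 := congrArg Wreath.lamp hz
  set u := ∑ j ∈ Finset.range m,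
    Finsupp.single (j • Pi.single i1 (1 : ℤ) : Fin k → ℤ) (1 : ZMod p) with hu
  change z.lamp + shift z.pos 0 = (shift (K • Pi.single i2 (1 : ℤ)) u - u) +
    shift (m • Pi.single i1 (1 : ℤ)) z.lamp at h1
  have h2 := congrArg (psi i1 i2 m) h1
  rw [shift_zero, add_zero, map_add, psi_shift i1 i2 h12, map_sub] at h2
  have h3 : psi i1 i2 m (shift (K • Pi.single i2 (1 : ℤ)) u) = 0 := by
    rw [hu]
    have : shift (K • Pi.single i2 (1 : ℤ)) (∑ j ∈ Finset.range m,
        Finsupp.single (j • Pi.single i1 (1 : ℤ) : Fin k → ℤ) (1 : ZMod p)) =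
        ∑ j ∈ Finset.range m, Finsupp.single
          (K • Pi.single i2 (1 : ℤ) + j • Pi.single i1 (1 : ℤ) : Fin k → ℤ) (1 : ZMod p) := by
      have := map_sum (X (p := p) (K • Pi.single i2 (1 : ℤ) : Fin k → ℤ))
        (fun j => Finsupp.single (j • Pi.single i1 (1 : ℤ) : Fin k → ℤ) (1 : ZMod p))
        (Finset.range m)
      rw [X_apply] at this
      rw [this]
      apply Finset.sum_congr rfl
      intro j _
      rw [X_apply, shift_single]
    rw [this, map_sum]
    apply Finset.sum_eq_zero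
    intro j _
    rw [psi_single, if_neg]
    rintro ⟨h, -⟩
    have : (K : ℤ) = 0 := by simpa [h12.symm] using h
    omega
  have h4 : psi i1 i2 m u = 1 := by
    rw [hu, map_sum, Finset.sum_eq_single 0]
    · rw [psi_single, if_pos]
      simp
    · intro j hj hj0
      rw [psi_single, if_neg]
      rintro ⟨-, h⟩
      have h5 : (m : ℤ) ∣ (j : ℤ) := by simpa using h
      have h6 : m ∣ j := by exact_mod_cast h5
      have h7 := Nat.le_of_dvd (Nat.pos_of_ne_zero hj0) h6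
      have h8 := Finset.mem_range.1 hj
      omega
    · intro h
      exact absurd (Finset.mem_range.2 hm) h
  rw [h3, h4] at h2
  have h5 : (1 : ZMod p) = 0 := by linear_combination h2
  exact one_ne_zero h5

/-- The lower bound at the scales `p^v`. -/
theorem low1 (hk : 2 ≤ k) (S : Set (Wreath (ZMod p) (Fin k → ℤ)))
    (hS : Subgroup.closure S = ⊤) : ∃ l : ℕ, 1 ≤ l ∧ ∀ v : ℕ,
      ((p ^ ((Nat.sqrt v + 1) * p ^ v) : ℕ) : ℕ∞) ≤ conjDepth S (7 * l * p ^ v) := by
  have hp : p.Prime := Fact.out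
  let i1 : Fin k := ⟨0, by omega⟩
  let i2 : Fin k := ⟨1, by omega⟩
  have h12 : i1 ≠ i2 := by
    intro h
    have := congrArg Fin.val h
    simp [i1, i2] at this
  let e1 : Fin k → ℤ := Pi.single i1 1
  let e2 : Fin k → ℤ := Pi.single i2 1
  obtain ⟨l1, hl1⟩ := exists_inBall hS (⟨0, e1⟩ : Wreath (ZMod p) (Fin k → ℤ))
  obtain ⟨l2, hl2⟩ := exists_inBall hS (⟨0, e2⟩ : Wreath (ZMod p) (Fin k → ℤ))
  obtain ⟨l3, hl3⟩ := exists_inBall hS (⟨Finsupp.single 0 1, 0⟩ : Wreath (ZMod p) (Fin k → ℤ))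
  set l := l1 + l2 + l3 + 1 with hl
  have ht1 := hl1.mono (show l1 ≤ l by omega)
  have ht2 := hl2.mono (show l2 ≤ l by omega)
  have hb := hl3.mono (show l3 ≤ l by omega)
  refine ⟨l, by omega, fun v => ?_⟩
  set D := Nat.sqrt v with hD
  set K := glCard (ZMod p) D with hK
  set m := p ^ v with hm
  have hmpos : 0 < m := pow_pos hp.pos v
  have hKpos : 0 < K := glCard_pos D
  have hKm : K ≤ m := by
    refine (glCard_le D).trans ?_
    rw [Nat.card_zmod, hm]
    exact Nat.pow_le_pow_right hp.pos (Nat.sqrt_le v)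
  have hx : InBall S (7 * l * m) (⟨0, m • e1⟩ : Wreath (ZMod p) (Fin k → ℤ)) := by
    rw [← word1]
    apply (ht1.pow m).mono
    nlinarith
  have hy := (((((ht2.pow K).mul ((hb.mul ht1).pow m)).mul (ht1.pow m).inv).mul
    (ht2.pow K).inv).mul ((hb.inv.mul ht1).pow m))
  rw [word3] at hy
  have hlen : l * K + (l + l) * m + l * m + l * K + (l + l) * m ≤ 7 * l * m := by
    have : l * K ≤ l * m := Nat.mul_le_mul_left _ hKm
    nlinarith
  have hy' := hy.mono hlen
  refine le_trans ?_ (le_sSup ⟨_, _, hx, hy', not_conj i1 i2 h12 m K hmpos hKpos, rfl⟩)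
  apply le_sInf
  rintro d ⟨N, hN, hfin, hsep, rfl⟩
  exact_mod_cast index_ge e1 e2 v D N hsep

end

end Q22CD
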