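import Pool.Agent.Q22.CD.Low2

namespace Q22CD

lemma real_bound (p : ℕ) (hp : 2 ≤ p) (n v : ℕ) (hn : 1 ≤ n) (hv : n ≤ p ^ v) :
    (2 : ℝ) ^ ((n : ℝ) * Real.sqrt (Real.log n)) ≤ ((p ^ ((Nat.sqrt v + 1) * p ^ v) : ℕ) : ℝ) := by
  have hp0 : (0 : ℝ) < p := by exact_mod_cast (by omega : 0 < p)
  have hp2 : (2 : ℝ) ≤ p := by exact_mod_cast hp
  have hn1 : (1 : ℝ) ≤ n := by exact_mod_cast hn
  have hlogp : Real.log 2 ≤ Real.log p := Real.log_le_log (by norm_num) hp2
  have hlog2 : 0 < Real.log 2 := Real.log_pos (by norm_num)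
  have hlog2' : Real.log 2 < 1 := by
    have := Real.log_two_lt_d9
    linarith
  set L := Real.log p with hL
  have hLpos : 0 < L := by linarith
  set m := p ^ v with hm
  have hlogn : Real.log n ≤ v * L := by
    have h1 : Real.log n ≤ Real.log ((p : ℝ) ^ v) := by
      apply Real.log_le_log (by linarith)
      exact_mod_cast hv
    rwa [Real.log_pow] at h1
  have hlogn0 : 0 ≤ Real.log n := Real.log_nonneg hn1
  have hsq : Real.sqrt (Real.log n) ≤ (Nat.sqrt v + 1 : ℕ) * Real.sqrt L := by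
    have h1 : Real.sqrt (Real.log n) ≤ Real.sqrt (v * L) := Real.sqrt_le_sqrt hlogn
    have h2 : Real.sqrt (v * L) = Real.sqrt v * Real.sqrt L :=
      Real.sqrt_mul (Nat.cast_nonneg v) L
    have h3 : Real.sqrt v ≤ (Nat.sqrt v + 1 : ℕ) := by
      rw [Real.sqrt_le_left (Nat.cast_nonneg _)]
      have h4 := Nat.lt_succ_sqrt v
      have h5 : v ≤ (Nat.sqrt v + 1) ^ 2 := by
        rw [sq]
        exact h4.le
      exact_mod_cast h5
    rw [h2] at h1
    exact h1.trans (mul_le_mul_of_nonneg_right h3 (Real.sqrt_nonneg _))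
  have hkey : Real.log 2 * Real.sqrt L ≤ L := by
    have h1 : Real.log 2 ≤ Real.sqrt L := by
      apply Real.le_sqrt_of_sq_le
      nlinarith
    calc Real.log 2 * Real.sqrt L ≤ Real.sqrt L * Real.sqrt L :=
          mul_le_mul_of_nonneg_right h1 (Real.sqrt_nonneg _)
      _ = L := Real.mul_self_sqrt hLpos.le
  have hnm : (n : ℝ) ≤ m := by exact_mod_cast hv
  rw [Real.rpow_def_of_pos (by norm_num : (0 : ℝ) < 2)]
  have hR : ((p ^ ((Nat.sqrt v + 1) * m) : ℕ) : ℝ) = Real.exp (L * ((Nat.sqrt v + 1 : ℕ) * m)) := by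
    push_cast
    rw [hL, ← Real.rpow_natCast, Real.rpow_def_of_pos hp0]
    push_cast
    rfl
  rw [hR]
  apply Real.exp_le_exp.2
  set D : ℝ := ((Nat.sqrt v + 1 : ℕ) : ℝ) with hD
  have hD0 : 0 ≤ D := Nat.cast_nonneg _
  calc Real.log 2 * (n * Real.sqrt (Real.log n)) ≤ Real.log 2 * (m * (D * Real.sqrt L)) := by
        apply mul_le_mul_of_nonneg_left _ hlog2.le
        exact mul_le_mul hnm hsq (Real.sqrt_nonneg _) (Nat.cast_nonneg _)
    _ = (Real.log 2 * Real.sqrt L) * (D * m) := by ring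
    _ ≤ L * (D * m) := mul_le_mul_of_nonneg_right hkey (mul_nonneg hD0 (Nat.cast_nonneg _))

/-- The lower bound. -/
theorem lower {p : ℕ} [Fact p.Prime] {k : ℕ} (hk : 2 ≤ k)
    (S : Set (Wreath (ZMod p) (Fin k → ℤ))) (hS : Subgroup.closure S = ⊤) :
    Dominated (fun n => (2 : ℝ) ^ ((n : ℝ) * Real.sqrt (Real.log n))) (conjDepth S) := by
  have hp : p.Prime := Fact.out
  obtain ⟨l, hl, h⟩ := low1 hk S hS
  have hC : 0 < 7 * l * p := by
    have := hp.pos
    positivity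
  refine ⟨7 * l * p, hC, fun n hn => ?_⟩
  set v := Nat.clog p n with hv
  have h1 : n ≤ p ^ v := Nat.le_pow_clog hp.one_lt n
  have h2 : p ^ v ≤ p * n := by
    rcases Nat.lt_or_ge 1 n with hn1 | hn1
    · have h3 := Nat.pow_pred_clog_lt_self hp.one_lt hn1
      have h4 : 0 < v := Nat.clog_pos hp.one_lt hn1
      have h5 : p ^ v = p * p ^ (v - 1) := by
        rw [← pow_succ']
        congr 1
        omega
      rw [h5]
      exact Nat.mul_le_mul_left _ h3.le
    · have : n = 1 := by omega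
      have h6 : v = 0 := by
        rw [hv, this]
        exact Nat.clog_one_right p
      rw [h6, pow_zero, this, mul_one]
      exact hp.one_lt.le
  have h3 := real_bound p hp.two_le n v hn h1
  have h4 : conjDepth S (7 * l * p ^ v) ≤ conjDepth S (7 * l * p * n) := by
    apply conjDepth_mono
    calc 7 * l * p ^ v ≤ 7 * l * (p * n) := Nat.mul_le_mul_left _ h2
      _ = 7 * l * p * n := by ring
  have h5 := (h v).trans h4
  have h6 : ENNReal.ofReal ((2 : ℝ) ^ ((n : ℝ) * Real.sqrt (Real.log n))) ≤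
      ((p ^ ((Nat.sqrt v + 1) * p ^ v) : ℕ) : ENNReal) := by
    rw [← ENNReal.ofReal_natCast]
    exact ENNReal.ofReal_le_ofReal h3
  have h7 : ((p ^ ((Nat.sqrt v + 1) * p ^ v) : ℕ) : ENNReal) ≤
      (conjDepth S (7 * l * p * n) : ENNReal) := by
    have := ENat.toENNReal_mono h5
    simpa using this
  refine h6.trans (h7.trans ?_)
  have h8 : (1 : ENNReal) ≤ ((7 * l * p : ℕ) : ENNReal) := by exact_mod_cast hC
  exact le_mul_of_one_le_left bot_le h8

/-- `2^(n √(log n))` is not dominated by `2^n`. -/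
theorem not_dom_exp : ¬ Dominated (fun n => (2 : ℝ) ^ ((n : ℝ) * Real.sqrt (Real.log n)))
    (fun n => ((2 ^ n : ℕ) : ℕ∞)) := by
  rintro ⟨C, hC, h⟩
  obtain ⟨n, hn⟩ := exists_nat_gt (Real.exp ((2 * C : ℝ) ^ 2))
  have hexp : (1 : ℝ) ≤ Real.exp ((2 * C : ℝ) ^ 2) := Real.one_le_exp (by positivity)
  have hn1 : (1 : ℝ) < n := lt_of_le_of_lt hexp hn
  have hn1' : 1 ≤ n := by
    have : (0 : ℝ) < n := by linarith
    exact_mod_cast this
  have h1 := h n hn1'
  have h2 : (2 * C : ℝ) ^ 2 < Real.log n := by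
    rw [Real.lt_log_iff_exp_lt (by linarith)]
    exact hn
  have h3 : (2 * C : ℝ) < Real.sqrt (Real.log n) := Real.lt_sqrt_of_sq_lt h2
  have h4 : ENNReal.ofReal ((2 : ℝ) ^ ((n : ℝ) * Real.sqrt (Real.log n))) ≤
      ((C * 2 ^ (C * n) : ℕ) : ENNReal) := by
    refine h1.trans (le_of_eq ?_)
    push_cast
    simp
  rw [← ENNReal.ofReal_natCast, ENNReal.ofReal_le_ofReal_iff (Nat.cast_nonneg _)] at h4
  have h5 : ((C * 2 ^ (C * n) : ℕ) : ℝ) ≤ (2 : ℝ) ^ ((2 * C * n : ℕ) : ℝ) := by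
    rw [Real.rpow_natCast]
    have h6 : C * 2 ^ (C * n) ≤ 2 ^ (2 * C * n) := by
      calc C * 2 ^ (C * n) ≤ 2 ^ (C * n) * 2 ^ (C * n) := by
            apply Nat.mul_le_mul_right
            calc C ≤ 2 ^ C := Nat.lt_two_pow_self.le
              _ ≤ 2 ^ (C * n) := Nat.pow_le_pow_right (by norm_num) (Nat.le_mul_of_pos_right _ hn1')
        _ = 2 ^ (2 * C * n) := by rw [← pow_add]; congr 1; ring
    exact_mod_cast h6
  have h7 : (2 : ℝ) ^ ((2 * C * n : ℕ) : ℝ) < (2 : ℝ) ^ ((n : ℝ) * Real.sqrt (Real.log n)) := by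
    apply Real.rpow_lt_rpow_of_exponent_lt (by norm_num)
    push_cast
    have : (0 : ℝ) < n := by linarith
    nlinarith
  linarith

end Q22CD
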