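import Mathlib

open Polynomial

namespace Q22CD

/-- If `w(X^s)` is a constant multiple of `w^s`, `w(0) ≠ 0`, `deg w < s`, `s ≠ 0` in `K`, then `w` is
constant. -/
lemma const_of_expand {K : Type*} [Field K] {s : ℕ} (hs : (s : K) ≠ 0) (w : K[X])
    (hw0 : w.eval 0 ≠ 0) (hdeg : w.natDegree < s) (c : K) (h : expand K s w = C c * w ^ s) :
    w.natDegree = 0 := by
  classical
  by_contra hne
  have hwne : w ≠ 0 := by
    rintro rfl
    simp at hw0
  have hspos : 0 < s := by omega
  have hc : c ≠ 0 := by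
    rintro rfl
    have : expand K s w = 0 := by rw [h]; simp
    rw [expand_eq_zero hspos] at this
    exact hwne this
  let L := AlgebraicClosure K
  set W : L[X] := w.map (algebraMap K L) with hW
  have hWdeg : W.natDegree = w.natDegree := natDegree_map _
  have hWne : W ≠ 0 := (Polynomial.map_ne_zero_iff (algebraMap K L).injective).2 hwne
  obtain ⟨σ, hσ⟩ : ∃ σ : L, W.IsRoot σ := by
    apply IsAlgClosed.exists_root
    intro hd
    have := natDegree_eq_of_degree_eq_some (n := 0) (by simpa using hd)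
    omega
  have hσ0 : σ ≠ 0 := by
    rintro rfl
    apply hw0
    have h1 : W.eval 0 = 0 := hσ
    rw [hW, ← coeff_zero_eq_eval_zero, coeff_map] at h1
    rw [← coeff_zero_eq_eval_zero]
    exact (map_eq_zero (algebraMap K L)).1 h1
  have hE : expand L s W = C (algebraMap K L c) * W ^ s := by
    rw [hW, ← map_expand, h]
    simp
  have hsL : (s : L) ≠ 0 := by
    intro h0
    apply hs
    have : algebraMap K L (s : K) = 0 := by simpa using h0
    exact (map_eq_zero (algebraMap K L)).1 this
  have hsub : ∀ τ ∈ (X ^ s - C σ : L[X]).roots, τ ∈ W.roots := by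
    intro τ hτ
    have hτ' : τ ^ s = σ := by
      have := (mem_roots'.1 hτ).2
      simpa [IsRoot, sub_eq_zero] using this
    have h2 : eval τ (expand L s W) = 0 := by
      rw [expand_eval, hτ']
      exact hσ
    rw [hE] at h2
    simp only [eval_mul, eval_C, eval_pow, mul_eq_zero, map_eq_zero, hc, false_or] at h2
    have h3 : eval τ W = 0 := pow_eq_zero_iff (by omega) |>.1 h2
    exact (mem_roots hWne).2 h3
  have hsep : (X ^ s - C σ : L[X]).Separable := separable_X_pow_sub_C σ hsL hσ0
  have hcard : Multiset.card (X ^ s - C σ : L[X]).roots = s := by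
    have := (IsAlgClosed.splits (X ^ s - C σ : L[X])).natDegree_eq_card_roots
    rw [← this, natDegree_X_pow_sub_C]
  have hnd : (X ^ s - C σ : L[X]).roots.Nodup := nodup_roots hsep
  have hle : (X ^ s - C σ : L[X]).roots ≤ W.roots := by
    rw [Multiset.le_iff_subset hnd]
    exact hsub
  have := Multiset.card_le_card hle
  have h4 := card_roots' W
  omega

/-- `u(X^s) = c u^s` and `deg u < s` imply that `u` is a monomial. -/
lemma monomial_of_expand {K : Type*} [Field K] {s : ℕ} (hs : (s : K) ≠ 0) (u : K[X])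
    (hu : u ≠ 0) (hdeg : u.natDegree < s) (c : K) (h : expand K s u = C c * u ^ s) :
    ∃ (t : ℕ) (e : K), e ≠ 0 ∧ u = C e * X ^ t := by
  obtain ⟨w, hw, hnd⟩ := exists_eq_pow_rootMultiplicity_mul_and_not_dvd u hu 0
  set t := rootMultiplicity 0 u
  simp only [map_zero, sub_zero] at hw hnd
  have hw0 : w.eval 0 ≠ 0 := by
    rw [← coeff_zero_eq_eval_zero]
    intro h0
    exact hnd (X_dvd_iff.2 h0)
  have hwne : w ≠ 0 := by
    rintro rfl
    simp at hw0
  have hspos : 0 < s := by omega
  have hwdeg : w.natDegree < s := by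
    have : w.natDegree ≤ u.natDegree := by
      rw [hw, natDegree_mul (pow_ne_zero _ X_ne_zero) hwne]
      omega
    omega
  have h2 : expand K s w = C c * w ^ s := by
    rw [hw] at h
    simp only [map_mul, map_pow, expand_X, mul_pow] at h
    have h3 : (X ^ s) ^ t * expand K s w = (X ^ s) ^ t * (C c * w ^ s) := by
      rw [h]
      rw [← pow_mul, ← pow_mul, mul_comm t s]
      ring
    exact mul_left_cancel₀ (pow_ne_zero _ (pow_ne_zero _ X_ne_zero)) h3
  have h5 := const_of_expand hs w hw0 hwdeg c h2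
  obtain ⟨e, he⟩ := natDegree_eq_zero.1 h5
  refine ⟨t, e, ?_, ?_⟩
  · rintro rfl
    apply hwne
    rw [← he]; simp
  · rw [hw, ← he]; ring

lemma expand_eq_of_dvd {K : Type*} [Field K] {s : ℕ} (hs : 0 < s) (u : K[X]) (hu : u ≠ 0)
    (h : u ^ s ∣ expand K s u) : ∃ c : K, expand K s u = C c * u ^ s := by
  obtain ⟨q, hq⟩ := h
  have hne : expand K s u ≠ 0 := by
    rw [Ne, expand_eq_zero hs]; exact hu
  have hq0 : q ≠ 0 := by
    rintro rfl
    rw [hq] at hne
    simp at hne
  have hd : (expand K s u).natDegree = (u ^ s).natDegree + q.natDegree := by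
    conv_lhs => rw [hq]
    exact natDegree_mul (pow_ne_zero _ hu) hq0
  rw [natDegree_expand, natDegree_pow, mul_comm] at hd
  have : q.natDegree = 0 := by omega
  obtain ⟨c, hc⟩ := natDegree_eq_zero.1 this
  exact ⟨c, by rw [hq, ← hc]; ring⟩

/-- Core lemma: `f(X^s) g(X)^s = f(X)^s g(X^s)` with `deg f, deg g < s` implies that `f` and `g`
agree up to a power of `X`, if the only `c` with `c^s = c`, `c ≠ 0` is `1`. -/
lemma core {K : Type*} [Field K] {s : ℕ} (hs : (s : K) ≠ 0)
    (hc : ∀ c : K, c ≠ 0 → c ^ s = c → c = 1) (f g : K[X]) (hf : f ≠ 0) (hg : g ≠ 0)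
    (hfd : f.natDegree < s) (hgd : g.natDegree < s)
    (h : expand K s f * g ^ s = f ^ s * expand K s g) :
    ∃ a b : ℕ, X ^ a * f = X ^ b * g := by
  classical
  have hspos : 0 < s := by omega
  obtain ⟨u, hu⟩ := EuclideanDomain.gcd_dvd_left f g
  obtain ⟨v, hv⟩ := EuclideanDomain.gcd_dvd_right f g
  set d := EuclideanDomain.gcd f g with hd
  have hd0 : d ≠ 0 := by
    intro h0
    rw [h0, zero_mul] at hu
    exact hf hu
  have hcop : IsCoprime u v := by
    have hb : d = f * EuclideanDomain.gcdA f g + g * EuclideanDomain.gcdB f g :=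
      EuclideanDomain.gcd_eq_gcd_ab f g
    refine ⟨EuclideanDomain.gcdA f g, EuclideanDomain.gcdB f g, ?_⟩
    apply mul_left_cancel₀ hd0
    calc d * (EuclideanDomain.gcdA f g * u + EuclideanDomain.gcdB f g * v)
        = (d * u) * EuclideanDomain.gcdA f g + (d * v) * EuclideanDomain.gcdB f g := by ring
      _ = f * EuclideanDomain.gcdA f g + g * EuclideanDomain.gcdB f g := by rw [← hu, ← hv]
      _ = d * 1 := by rw [← hb, mul_one]
  have hu0 : u ≠ 0 := by
    rintro rfl
    rw [mul_zero] at hu
    exact hf hu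
  have hv0 : v ≠ 0 := by
    rintro rfl
    rw [mul_zero] at hv
    exact hg hv
  have hud : u.natDegree < s := by
    have : u.natDegree ≤ f.natDegree := by
      conv_rhs => rw [hu]
      rw [natDegree_mul hd0 hu0]; omega
    omega
  have hvd : v.natDegree < s := by
    have : v.natDegree ≤ g.natDegree := by
      conv_rhs => rw [hv]
      rw [natDegree_mul hd0 hv0]; omega
    omega
  have h2 : expand K s u * v ^ s = u ^ s * expand K s v := by
    rw [hu, hv] at h
    simp only [map_mul, mul_pow] at h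
    have hne : expand K s d * d ^ s ≠ 0 :=
      mul_ne_zero (by rw [Ne, expand_eq_zero hspos]; exact hd0) (pow_ne_zero _ hd0)
    apply mul_left_cancel₀ hne
    linear_combination h
  have hcop' : IsCoprime (u ^ s) (v ^ s) := hcop.pow
  have hud1 : u ^ s ∣ expand K s u := by
    apply hcop'.dvd_of_dvd_mul_right
    rw [h2]
    exact dvd_mul_right _ _
  have hvd1 : v ^ s ∣ expand K s v := by
    apply hcop'.symm.dvd_of_dvd_mul_left
    rw [← h2]
    exact dvd_mul_left _ _
  obtain ⟨c1, hc1⟩ := expand_eq_of_dvd hspos u hu0 hud1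
  obtain ⟨c2, hc2⟩ := expand_eq_of_dvd hspos v hv0 hvd1
  obtain ⟨t1, e1, he1, hu1⟩ := monomial_of_expand hs u hu0 hud c1 hc1
  obtain ⟨t2, e2, he2, hv1⟩ := monomial_of_expand hs v hv0 hvd c2 hc2
  have h6 : e1 * e2 ^ s = e1 ^ s * e2 := by
    rw [hu1, hv1] at h2
    simp only [map_mul, expand_C, map_pow, expand_X, mul_pow] at h2
    have h7 := congrArg (eval 1) h2
    simpa using h7
  have h8 : e1 = e2 := by
    have h9 : (e1 / e2) ^ s = e1 / e2 := by
      rw [div_pow]
      field_simp
      linear_combination -h6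
    have h10 := hc (e1 / e2) (div_ne_zero he1 he2) h9
    rwa [div_eq_one_iff_eq he2] at h10
  refine ⟨t2, t1, ?_⟩
  rw [hu, hv, hu1, hv1, h8]
  ring

end Q22CD
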