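import Pool.Agent.Q22.CD.Defs

namespace Q22CD

lemma depth_le {G : Type} [Group G] {Q : Type*} [Group Q] [Finite Q] (π : G →* Q) (x y : G)
    (h : ∀ z : G, π (z * x * z⁻¹) ≠ π y) : depth x y ≤ (Nat.card Q : ℕ∞) := by
  have h1 : depth x y ≤ (π.ker.index : ℕ∞) := by
    apply sInf_le
    refine ⟨π.ker, inferInstance, ?_, ?_, rfl⟩
    · constructor
      rw [Subgroup.index_ker]
      exact Nat.card_pos.ne'
    · intro hc
      obtain ⟨c, hc⟩ := isConj_iff.1 hc
      obtain ⟨z, rfl⟩ := QuotientGroup.mk_surjective c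
      apply h z
      have h2 : ((z * x * z⁻¹ : G) : G ⧸ π.ker) = (y : G ⧸ π.ker) := hc
      rw [QuotientGroup.eq, MonoidHom.mem_ker, map_mul, map_inv, inv_mul_eq_one] at h2
      exact h2
  refine h1.trans ?_
  rw [Subgroup.index_ker]
  exact_mod_cast Nat.card_le_card_of_injective (fun x : π.range => (x : Q)) Subtype.val_injective

/-- The finite target group `F^(Z/m) ⋊ (Z/m × Fˣ)`. -/
@[ext] structure Tgt (m : ℕ) (F : Type) [Field F] where
  v : ZMod m → F
  i : ZMod m
  u : Fˣ

section
variable {m : ℕ} {F : Type} [Field F]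

noncomputable instance : Group (Tgt m F) where
  mul x y := ⟨fun r => x.v r + x.u * y.v (r - x.i), x.i + y.i, x.u * y.u⟩
  one := ⟨0, 0, 1⟩
  inv x := ⟨fun r => -((x.u⁻¹ : Fˣ) * x.v (r + x.i)), -x.i, x.u⁻¹⟩
  mul_assoc x y z := by
    apply Tgt.ext
    · funext r
      change (x.v r + x.u * y.v (r - x.i)) + ((x.u * y.u : Fˣ) : F) * z.v (r - (x.i + y.i)) =
        x.v r + x.u * (y.v (r - x.i) + y.u * z.v (r - x.i - y.i))
      rw [sub_sub]
      push_cast
      ring
    · exact add_assoc _ _ _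
    · exact mul_assoc _ _ _
  one_mul x := by
    apply Tgt.ext
    · funext r
      change (0 : F) + ((1 : Fˣ) : F) * x.v (r - 0) = x.v r
      simp
    · exact zero_add _
    · exact one_mul _
  mul_one x := by
    apply Tgt.ext
    · funext r
      change x.v r + x.u * (0 : F) = x.v r
      simp
    · exact add_zero _
    · exact mul_one _
  inv_mul_cancel x := by
    apply Tgt.ext
    · funext r
      change -(((x.u⁻¹ : Fˣ) : F) * x.v (r + x.i)) + ((x.u⁻¹ : Fˣ) : F) * x.v (r - -x.i) = 0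
      rw [sub_neg_eq_add, neg_add_cancel]
    · exact neg_add_cancel _
    · exact inv_mul_cancel _

lemma tgt_mul_v (x y : Tgt m F) (r : ZMod m) : (x * y).v r = x.v r + x.u * y.v (r - x.i) := rfl
lemma tgt_mul_i (x y : Tgt m F) : (x * y).i = x.i + y.i := rfl
lemma tgt_mul_u (x y : Tgt m F) : (x * y).u = x.u * y.u := rfl

/-- `Tgt` as a product. -/
def tgtEquiv : Tgt m F ≃ (ZMod m → F) × ZMod m × Fˣ where
  toFun x := (x.v, x.i, x.u)
  invFun x := ⟨x.1, x.2.1, x.2.2⟩
  left_inv _ := rfl
  right_inv _ := rfl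

instance [NeZero m] [Finite F] : Finite (Tgt m F) := Finite.of_equiv _ tgtEquiv.symm

lemma card_tgt [NeZero m] [Finite F] : Nat.card (Tgt m F) ≤ Nat.card F ^ (m + 1) * m := by
  rw [Nat.card_congr tgtEquiv, Nat.card_prod, Nat.card_prod, Nat.card_fun, Nat.card_zmod]
  have h : Nat.card Fˣ ≤ Nat.card F :=
    Nat.card_le_card_of_injective (fun u : Fˣ => (u : F)) Units.val_injective
  calc Nat.card F ^ m * (m * Nat.card Fˣ) ≤ Nat.card F ^ m * (m * Nat.card F) := by gcongr
    _ = Nat.card F ^ (m + 1) * m := by ring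

end

section
variable {R A F : Type} [CommRing R] [AddCommGroup A] [Field F] {m : ℕ}

/-- The evaluation of `f : A → R` in `F^(Z/m)`. -/
noncomputable def theta (φ : R →+* F) (lam : A →+ ZMod m) (mu : A →+ ℤ) (β : Fˣ) :
    (A →₀ R) →+ (ZMod m → F) :=
  Finsupp.liftAddHom fun a =>
    { toFun := fun c r => if lam a = r then φ c * ((β ^ mu a : Fˣ) : F) else 0
      map_zero' := by funext r; simp
      map_add' := by
        intro c d
        funext r
        by_cases h : lam a = r <;> simp [h, add_mul] }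

lemma theta_single (φ : R →+* F) (lam : A →+ ZMod m) (mu : A →+ ℤ) (β : Fˣ) (a : A) (c : R)
    (r : ZMod m) : theta φ lam mu β (Finsupp.single a c) r =
      if lam a = r then φ c * ((β ^ mu a : Fˣ) : F) else 0 := by
  unfold theta
  rw [Finsupp.liftAddHom_apply_single]
  rfl

lemma theta_shift (φ : R →+* F) (lam : A →+ ZMod m) (mu : A →+ ℤ) (β : Fˣ) (b : A) (f : A →₀ R)
    (r : ZMod m) : theta φ lam mu β (shift b f) r =
      ((β ^ mu b : Fˣ) : F) * theta φ lam mu β f (r - lam b) := by
  induction f using Finsupp.induction_linear with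
  | zero => simp [shift_zero]
  | add f g hf hg =>
    rw [shift_add, map_add, map_add, Pi.add_apply, Pi.add_apply, hf, hg, mul_add]
  | single a c =>
    rw [shift_single, theta_single, theta_single, map_add, map_add, zpow_add]
    have : (lam b + lam a = r) ↔ (lam a = r - lam b) := by
      rw [eq_sub_iff_add_eq, add_comm]
    by_cases h : lam a = r - lam b
    · rw [if_pos (this.2 h), if_pos h]
      push_cast
      ring
    · rw [if_neg (fun h' => h (this.1 h')), if_neg h, mul_zero]

/-- The quotient map. -/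
noncomputable def toTgt (φ : R →+* F) (lam : A →+ ZMod m) (mu : A →+ ℤ) (β : Fˣ) :
    Wreath R A →* Tgt m F where
  toFun x := ⟨theta φ lam mu β x.lamp, lam x.pos, β ^ mu x.pos⟩
  map_one' := by
    apply Tgt.ext
    · change theta φ lam mu β 0 = 0
      rw [map_zero]
    · change lam 0 = 0
      rw [map_zero]
    · change β ^ mu 0 = 1
      rw [map_zero, zpow_zero]
  map_mul' x y := by
    apply Tgt.ext
    · funext r
      change theta φ lam mu β (x.lamp + shift x.pos y.lamp) r =
        theta φ lam mu β x.lamp r + ((β ^ mu x.pos : Fˣ) : F) *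
          theta φ lam mu β y.lamp (r - lam x.pos)
      rw [map_add, Pi.add_apply, theta_shift]
    · change lam (x.pos + y.pos) = lam x.pos + lam y.pos
      rw [map_add]
    · change β ^ mu (x.pos + y.pos) = β ^ mu x.pos * β ^ mu y.pos
      rw [map_add, zpow_add]

lemma toTgt_conj (φ : R →+* F) (lam : A →+ ZMod m) (mu : A →+ ℤ) (β : Fˣ) (x y z : Wreath R A)
    (hx1 : lam y.pos = 0) (hx2 : mu y.pos = 0)
    (h : toTgt φ lam mu β (z * x * z⁻¹) = toTgt φ lam mu β y) (r : ZMod m) :
    theta φ lam mu β y.lamp r =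
      ((β ^ mu z.pos : Fˣ) : F) * theta φ lam mu β x.lamp (r - lam z.pos) := by
  have h1 : toTgt φ lam mu β (z * x) = toTgt φ lam mu β (y * z) := by
    have : z * x = (z * x * z⁻¹) * z := by group
    rw [this, map_mul, h, ← map_mul]
  have h2 := congrFun (congrArg Tgt.v h1) r
  change theta φ lam mu β (z.lamp + shift z.pos x.lamp) r =
    theta φ lam mu β (y.lamp + shift y.pos z.lamp) r at h2
  rw [map_add, map_add, Pi.add_apply, Pi.add_apply, theta_shift, theta_shift, hx1, hx2, zpow_zero,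
    sub_zero, Units.val_one, one_mul, add_comm] at h2
  exact (add_right_cancel h2).symm

/-- The main quotient lemma. -/
lemma depth_le_of_theta [NeZero m] [Finite F] (φ : R →+* F) (lam : A →+ ZMod m) (mu : A →+ ℤ)
    (β β' : Fˣ) (x y : Wreath R A) (hx1 : lam y.pos = 0) (hx2 : mu y.pos = 0)
    (h : ∀ (i : ZMod m) (j : ℤ), ∃ r,
      ¬ (theta φ lam mu β y.lamp r = ((β ^ j : Fˣ) : F) * theta φ lam mu β x.lamp (r - i) ∧
        theta φ lam mu β' y.lamp r = ((β' ^ j : Fˣ) : F) * theta φ lam mu β' x.lamp (r - i))) :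
    depth x y ≤ (((Nat.card F ^ (m + 1) * m) ^ 2 : ℕ) : ℕ∞) := by
  refine (depth_le ((toTgt φ lam mu β).prod (toTgt φ lam mu β')) x y ?_).trans ?_
  · intro z hz
    obtain ⟨r, hr⟩ := h (lam z.pos) (mu z.pos)
    apply hr
    rw [MonoidHom.prod_apply, MonoidHom.prod_apply, Prod.mk.injEq] at hz
    exact ⟨toTgt_conj φ lam mu β x y z hx1 hx2 hz.1 r, toTgt_conj φ lam mu β' x y z hx1 hx2 hz.2 r⟩
  · rw [Nat.card_prod, sq]
    exact_mod_cast Nat.mul_le_mul card_tgt card_tgt

end

end Q22CD
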