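import Pool.Agent.Q22.CD.Quot
import Pool.Agent.Q22.CD.Beta

open Polynomial

namespace Q22CD

section
variable {R A B : Type} [CommRing R] [AddCommGroup A] [AddCommGroup B]

/-- `h ↦ h - shift a h` -/
noncomputable def diffHom (a : A) : (A →₀ R) →+ (A →₀ R) where
  toFun h := h - shift a h
  map_zero' := by rw [shift_zero, sub_zero]
  map_add' x y := by rw [shift_add]; abel

lemma single_mem (a d : A) (c : R) (t : ℤ) :
    Finsupp.single d c - Finsupp.single (d + t • a) c ∈ (diffHom (R := R) a).range := by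
  set M := (diffHom (R := R) a).range with hM
  have hper : Function.Periodic (fun x : A => (QuotientAddGroup.mk (Finsupp.single x c) :
      (A →₀ R) ⧸ M)) a := by
    intro x
    rw [QuotientAddGroup.eq]
    refine ⟨Finsupp.single x c, ?_⟩
    change Finsupp.single x c - shift a (Finsupp.single x c) = _
    rw [shift_single, add_comm a x]
    abel
  have h1 := (hper.zsmul t) d
  rw [QuotientAddGroup.eq] at h1
  have h2 : Finsupp.single d c - Finsupp.single (d + t • a) c =
      -Finsupp.single (d + t • a) c + Finsupp.single d c := by abel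
  rw [h2]
  exact h1

lemma exists_diff (a : A) (D : A →₀ R) (τ : A → B) (hD : D.mapDomain τ = 0)
    (hsep : ∀ d ∈ D.support, ∀ d' ∈ D.support, τ d = τ d' → ∃ t : ℤ, d' = d + t • a) :
    ∃ h : A →₀ R, D = h - shift a h := by
  classical
  let σ : B → A := fun x => if hx : ∃ d ∈ D.support, τ d = x then hx.choose else 0
  have hσ : ∀ d ∈ D.support, σ (τ d) ∈ D.support ∧ τ (σ (τ d)) = τ d := by
    intro d hd
    have hx : ∃ d' ∈ D.support, τ d' = τ d := ⟨d, hd, rfl⟩
    have : σ (τ d) = hx.choose := dif_pos hx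
    rw [this]
    exact hx.choose_spec
  have h1 : D.mapDomain (fun d => σ (τ d)) = 0 := by
    have : (fun d => σ (τ d)) = σ ∘ τ := rfl
    rw [this, Finsupp.mapDomain_comp, hD, Finsupp.mapDomain_zero]
  have h2 : D = D.sum (fun d c => Finsupp.single d c - Finsupp.single (σ (τ d)) c) := by
    have e1 : D.sum (fun d c => Finsupp.single d c - Finsupp.single (σ (τ d)) c) =
        D.sum (fun d c => Finsupp.single d c) - D.sum (fun d c => Finsupp.single (σ (τ d)) c) :=
      Finsupp.sum_sub
    rw [e1, Finsupp.sum_single]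
    have e2 : D.sum (fun d c => Finsupp.single (σ (τ d)) c) = D.mapDomain (fun d => σ (τ d)) := rfl
    rw [e2, h1, sub_zero]
  have h3 : D ∈ (diffHom (R := R) a).range := by
    rw [h2]
    apply AddSubgroup.sum_mem
    intro d hd
    obtain ⟨t, ht⟩ := hsep d hd (σ (τ d)) (hσ d hd).1 (hσ d hd).2.symm
    change Finsupp.single d (D d) - Finsupp.single (σ (τ d)) (D d) ∈ _
    rw [ht]
    exact single_mem a d (D d) t
  obtain ⟨h, hh⟩ := h3
  exact ⟨h, hh.symm⟩

end

section
variable {R : Type} [CommRing R] {k : ℕ}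

lemma isConj_of_shift {B : Type} [AddCommGroup B] (τ : (Fin k → ℤ) →+ B) (a : Fin k → ℤ) (n : ℕ)
    (hsep : ∀ c : Fin k → ℤ, (∀ i, |c i| ≤ 6 * n) → τ c = 0 → ∃ t : ℤ, c = t • a)
    (f g : (Fin k → ℤ) →₀ R) (hf : ∀ c ∈ f.support, ∀ i, |c i| ≤ n)
    (hg : ∀ c ∈ g.support, ∀ i, |c i| ≤ n) (b : B)
    (h : ∀ x : B, g.mapDomain τ x = f.mapDomain τ (x - b)) :
    IsConj (⟨f, a⟩ : Wreath R (Fin k → ℤ)) ⟨g, a⟩ := by
  classical
  -- find `c` with `τ c = b`, `|c| ≤ 2n`, unless `g.mapDomain τ = 0`
  obtain ⟨c, hcn, hc⟩ : ∃ c : Fin k → ℤ, (∀ i, |c i| ≤ 2 * n) ∧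
      g.mapDomain τ = (shift c f).mapDomain τ := by
    have key : ∀ c : Fin k → ℤ, ∀ x : B, (shift c f).mapDomain τ x = f.mapDomain τ (x - τ c) := by
      intro c x
      have e1 : (shift c f).mapDomain τ = shift (τ c) (f.mapDomain τ) := by
        unfold shift
        rw [← Finsupp.mapDomain_comp, ← Finsupp.mapDomain_comp]
        congr 1
        funext y
        simp
      rw [e1, shift_apply']
    by_cases hz : g.mapDomain τ = 0
    · refine ⟨0, fun i => by simp, ?_⟩
      have hfz : f.mapDomain τ = 0 := by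
        ext x
        have := h (x + b)
        rw [add_sub_cancel_right] at this
        rw [← this, hz]
        rfl
      rw [shift_by_zero, hz, hfz]
    · obtain ⟨x, hx⟩ : ∃ x, g.mapDomain τ x ≠ 0 := by
        by_contra hcon
        push Not at hcon
        exact hz (Finsupp.ext hcon)
      have hx' : f.mapDomain τ (x - b) ≠ 0 := by rw [← h x]; exact hx
      obtain ⟨d, hd, hdx⟩ : ∃ d ∈ g.support, τ d = x := by
        have := Finsupp.mapDomain_support (Finsupp.mem_support_iff.2 hx)
        simpa using this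
      obtain ⟨e, he, hex⟩ : ∃ e ∈ f.support, τ e = x - b := by
        have := Finsupp.mapDomain_support (Finsupp.mem_support_iff.2 hx')
        simpa using this
      refine ⟨d - e, ?_, ?_⟩
      · intro i
        have h1 := hg d hd i
        have h2 := hf e he i
        rw [Pi.sub_apply]
        rw [abs_le] at *
        constructor <;> linarith [h1.1, h1.2, h2.1, h2.2]
      · have e3 : τ (d - e) = b := by
          rw [map_sub, hdx, hex]
          abel
        ext y
        rw [key, h y, e3]
  have hD : (g - shift c f).mapDomain τ = 0 := by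
    have : g.mapDomain τ - (shift c f).mapDomain τ = (g - shift c f).mapDomain τ := by
      exact (map_sub (Finsupp.mapDomain.addMonoidHom (M := R) τ) g (shift c f)).symm
    rw [← this, hc, sub_self]
  have hsupp : ∀ d ∈ (g - shift c f).support, ∀ i, |d i| ≤ 3 * n := by
    intro d hd i
    have h1 := Finsupp.support_sub hd
    rw [Finset.mem_union] at h1
    rcases h1 with h1 | h1
    · have := hg d h1 i
      have h0 : (0 : ℤ) ≤ n := Int.natCast_nonneg n
      linarith
    · have h2 : f (d - c) ≠ 0 := by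
        rw [Finsupp.mem_support_iff, shift_apply'] at h1
        exact h1
      have h3 := hf (d - c) (Finsupp.mem_support_iff.2 h2) i
      have h4 := hcn i
      rw [Pi.sub_apply] at h3
      rw [abs_le] at *
      constructor <;> linarith [h3.1, h3.2, h4.1, h4.2]
  obtain ⟨hh, hhh⟩ := exists_diff a (g - shift c f) τ hD (by
    intro d hd d' hd' hdd
    obtain ⟨t, ht⟩ := hsep (d' - d) (by
      intro i
      have h1 := hsupp d hd i
      have h2 := hsupp d' hd' i
      rw [Pi.sub_apply]
      rw [abs_le] at *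
      constructor <;> linarith [h1.1, h1.2, h2.1, h2.2]) (by rw [map_sub, hdd, sub_self])
    exact ⟨t, by rw [← ht]; abel⟩)
  rw [isConj_iff]
  refine ⟨⟨hh, c⟩, ?_⟩
  rw [mul_inv_eq_iff_eq_mul]
  apply Wreath.ext
  · change hh + shift c f = g + shift a hh
    have : g = (g - shift c f) + shift c f := by abel
    rw [this, hhh]
    abel
  · exact add_comm _ _

end

/-! ### Polynomials -/

section
variable {R A : Type} [CommRing R] [AddCommGroup A] {m p : ℕ} [Fact p.Prime]

/-- The component polynomials. -/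
noncomputable def poly (φ : R →+* ZMod p) (lam : A →+ ZMod m) (mu : A →+ ℤ) (N : ℕ) (f : A →₀ R)
    (r : ZMod m) : (ZMod p)[X] :=
  f.sum fun a c => if lam a = r then monomial (mu a + N).toNat (φ c) else 0

lemma theta_apply {F : Type} [Field F] (φ : R →+* F) (lam : A →+ ZMod m) (mu : A →+ ℤ) (β : Fˣ)
    (f : A →₀ R) (r : ZMod m) : theta φ lam mu β f r =
      f.sum fun a c => if lam a = r then φ c * ((β ^ mu a : Fˣ) : F) else 0 := by
  unfold theta
  rw [Finsupp.liftAddHom_apply, Finsupp.sum, Finset.sum_apply]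
  rfl

lemma poly_eval {F : Type} [Field F] [Algebra (ZMod p) F] (φ : R →+* ZMod p) (lam : A →+ ZMod m)
    (mu : A →+ ℤ) (N : ℕ) (f : A →₀ R) (hN : ∀ a ∈ f.support, |mu a| ≤ N) (β : Fˣ) (r : ZMod m) :
    aeval (β : F) (poly φ lam mu N f r) =
      (β : F) ^ N * theta ((algebraMap (ZMod p) F).comp φ) lam mu β f r := by
  rw [theta_apply, poly, Finsupp.sum, Finsupp.sum, map_sum, Finset.mul_sum]
  apply Finset.sum_congr rfl
  intro a ha
  by_cases h : lam a = r
  · rw [if_pos h, if_pos h, aeval_monomial, RingHom.comp_apply]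
    have h1 := hN a ha
    rw [abs_le] at h1
    have h2 : (β : F) ^ (mu a + N).toNat = (β : F) ^ N * ((β ^ mu a : Fˣ) : F) := by
      have h3 : ((mu a + N).toNat : ℤ) = mu a + N := Int.toNat_of_nonneg (by linarith [h1.1])
      have h4 : β ^ (mu a + N).toNat = β ^ N * β ^ mu a := by
        rw [← zpow_natCast, h3, zpow_add, zpow_natCast, mul_comm]
      have h5 := congrArg (Units.val) h4
      push_cast at h5
      rw [h5, Units.val_zpow_eq_zpow_val]
    rw [h2]
    ring
  · rw [if_neg h, if_neg h, map_zero, mul_zero]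

/-- coefficients indexed by `ℤ` -/
noncomputable def cZ (P : (ZMod p)[X]) (t : ℤ) : ZMod p := if 0 ≤ t then P.coeff t.toNat else 0

lemma cZ_X_pow_mul (a : ℕ) (P : (ZMod p)[X]) (t : ℤ) : cZ (X ^ a * P) t = cZ P (t - a) := by
  unfold cZ
  rw [coeff_X_pow_mul']
  by_cases h1 : 0 ≤ t
  · rw [if_pos h1]
    by_cases h2 : a ≤ t.toNat
    · have h3 : (0 : ℤ) ≤ t - a := by omega
      rw [if_pos h2, if_pos h3]
      congr 1
      omega
    · have h3 : ¬ (0 : ℤ) ≤ t - a := by omega
      rw [if_neg h2, if_neg h3]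
  · have h3 : ¬ (0 : ℤ) ≤ t - a := by omega
    rw [if_neg h1, if_neg h3]

lemma cZ_poly (φ : R →+* ZMod p) (lam : A →+ ZMod m) (mu : A →+ ℤ) (N : ℕ) (f : A →₀ R)
    (hN : ∀ a ∈ f.support, |mu a| ≤ N) (r : ZMod m) (t : ℤ) :
    cZ (poly φ lam mu N f r) (t + N) = φ (f.mapDomain (lam.prod mu) (r, t)) := by
  classical
  have e1 : f.mapDomain (lam.prod mu) (r, t) =
      ∑ a ∈ f.support, if lam a = r ∧ mu a = t then f a else 0 := by
    rw [Finsupp.mapDomain, Finsupp.sum_apply, Finsupp.sum]
    apply Finset.sum_congr rfl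
    intro a _
    rw [Finsupp.single_apply, AddMonoidHom.prod_apply]
    simp only [Prod.mk.injEq]
  rw [e1, map_sum]
  unfold cZ
  by_cases h0 : 0 ≤ t + N
  · rw [if_pos h0, poly, Finsupp.sum, finsetSum_coeff]
    apply Finset.sum_congr rfl
    intro a ha
    have h1 := hN a ha
    rw [abs_le] at h1
    by_cases h : lam a = r
    · rw [if_pos h, coeff_monomial]
      have h2 : ((mu a + N).toNat = (t + N).toNat) ↔ mu a = t := by
        constructor
        · intro h3
          have h4 : ((mu a + N).toNat : ℤ) = (t + N).toNat := by exact_mod_cast h3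
          rw [Int.toNat_of_nonneg (by linarith [h1.1]), Int.toNat_of_nonneg h0] at h4
          linarith
        · rintro rfl
          rfl
      by_cases h3 : mu a = t
      · rw [if_pos (h2.2 h3), if_pos ⟨h, h3⟩]
      · rw [if_neg (fun h' => h3 (h2.1 h')), if_neg (fun h' => h3 h'.2), map_zero]
    · rw [if_neg h, if_neg (fun h' => h h'.1), coeff_zero, map_zero]
  · rw [if_neg h0]
    symm
    apply Finset.sum_eq_zero
    intro a ha
    have h1 := hN a ha
    rw [abs_le] at h1
    rw [if_neg, map_zero]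
    rintro ⟨-, h3⟩
    apply h0
    rw [← h3]
    linarith [h1.1]

lemma poly_natDegree (φ : R →+* ZMod p) (lam : A →+ ZMod m) (mu : A →+ ℤ) (N : ℕ) (f : A →₀ R)
    (hN : ∀ a ∈ f.support, |mu a| ≤ N) (r : ZMod m) :
    (poly φ lam mu N f r).natDegree ≤ 2 * N := by
  rw [poly, Finsupp.sum]
  apply natDegree_sum_le_of_forall_le
  intro a ha
  have h1 := hN a ha
  rw [abs_le] at h1
  by_cases h : lam a = r
  · rw [if_pos h]
    refine (natDegree_monomial_le _).trans ?_
    omega
  · rw [if_neg h]
    simp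

end

end Q22CD
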