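import Pool.Agent.Q22.CD.Key

namespace Q22CD

section
variable {R : Type} [CommRing R] {k : ℕ}

/-- Size of an element of the wreath product: position, support and total weight of the lamps. -/
def Sz (ν : R → ℕ) (L : ℕ) (x : Wreath R (Fin k → ℤ)) : Prop :=
  (∀ i, |x.pos i| ≤ L) ∧ (∀ c ∈ x.lamp.support, ∀ i, |c i| ≤ L) ∧
    x.lamp.sum (fun _ r => ν r) ≤ L

variable {ν : R → ℕ}

lemma Sz.mono {L M : ℕ} (h : L ≤ M) {x : Wreath R (Fin k → ℤ)} (hx : Sz ν L x) : Sz ν M x := by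
  have h' : (L : ℤ) ≤ M := by exact_mod_cast h
  exact ⟨fun i => (hx.1 i).trans h', fun c hc i => (hx.2.1 c hc i).trans h', hx.2.2.trans h⟩

lemma exists_Sz (x : Wreath R (Fin k → ℤ)) : ∃ L : ℕ, Sz ν L x := by
  classical
  refine ⟨(∑ i, (x.pos i).natAbs) + (∑ c ∈ x.lamp.support, ∑ i, (c i).natAbs) +
    x.lamp.sum (fun _ r => ν r), ?_, ?_, ?_⟩
  · intro i
    have h1 : (x.pos i).natAbs ≤ ∑ i, (x.pos i).natAbs :=
      Finset.single_le_sum (f := fun i => (x.pos i).natAbs) (fun _ _ => Nat.zero_le _)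
        (Finset.mem_univ i)
    rw [Int.abs_eq_natAbs]
    exact_mod_cast (by omega)
  · intro c hc i
    have h1 : (c i).natAbs ≤ ∑ i, (c i).natAbs :=
      Finset.single_le_sum (f := fun i => (c i).natAbs) (fun _ _ => Nat.zero_le _)
        (Finset.mem_univ i)
    have h2 : ∑ i, (c i).natAbs ≤ ∑ c ∈ x.lamp.support, ∑ i, (c i).natAbs :=
      Finset.single_le_sum (f := fun c : Fin k → ℤ => ∑ i, (c i).natAbs)
        (fun _ _ => Nat.zero_le _) hc
    rw [Int.abs_eq_natAbs]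
    exact_mod_cast (by omega)
  · omega

lemma sum_add_le (h0 : ν 0 = 0) (hadd : ∀ a b, ν (a + b) ≤ ν a + ν b) {A : Type}
    (f g : A →₀ R) : (f + g).sum (fun _ r => ν r) ≤ f.sum (fun _ r => ν r) + g.sum (fun _ r => ν r) := by
  classical
  have e1 : (f + g).sum (fun _ r => ν r) = ∑ a ∈ f.support ∪ g.support, ν ((f + g) a) :=
    Finsupp.sum_of_support_subset _ Finsupp.support_add _ (fun _ _ => h0)
  have e2 : f.sum (fun _ r => ν r) = ∑ a ∈ f.support ∪ g.support, ν (f a) :=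
    Finsupp.sum_of_support_subset _ Finset.subset_union_left _ (fun _ _ => h0)
  have e3 : g.sum (fun _ r => ν r) = ∑ a ∈ f.support ∪ g.support, ν (g a) :=
    Finsupp.sum_of_support_subset _ Finset.subset_union_right _ (fun _ _ => h0)
  rw [e1, e2, e3, ← Finset.sum_add_distrib]
  exact Finset.sum_le_sum fun a _ => hadd _ _

lemma sum_shift {A : Type} [AddCommGroup A] (a : A) (f : A →₀ R) :
    (shift a f).sum (fun _ r => ν r) = f.sum (fun _ r => ν r) :=
  Finsupp.sum_mapDomain_index_inj (h := fun _ r => ν r) (add_right_injective a)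

lemma Sz.mul (h0 : ν 0 = 0) (hadd : ∀ a b, ν (a + b) ≤ ν a + ν b) {L M : ℕ}
    {x y : Wreath R (Fin k → ℤ)} (hx : Sz ν L x) (hy : Sz ν M y) : Sz ν (L + M) (x * y) := by
  classical
  refine ⟨?_, ?_, ?_⟩
  · intro i
    rw [mul_pos', Pi.add_apply]
    push_cast
    exact (abs_add_le _ _).trans (add_le_add (hx.1 i) (hy.1 i))
  · intro c hc i
    rw [mul_lamp] at hc
    have h1 := Finsupp.support_add hc
    rw [Finset.mem_union] at h1
    push_cast
    rcases h1 with h1 | h1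
    · have := hx.2.1 c h1 i
      have h2 : (0 : ℤ) ≤ M := Int.natCast_nonneg M
      linarith
    · rw [Finsupp.mem_support_iff, shift_apply'] at h1
      have h2 := hy.2.1 (c - x.pos) (Finsupp.mem_support_iff.2 h1) i
      have h3 := hx.1 i
      rw [Pi.sub_apply] at h2
      rw [abs_le] at *
      constructor <;> linarith [h2.1, h2.2, h3.1, h3.2]
  · rw [mul_lamp]
    refine (sum_add_le h0 hadd _ _).trans ?_
    rw [sum_shift]
    exact add_le_add hx.2.2 hy.2.2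

lemma Sz_one (h0 : ν 0 = 0) : Sz ν 0 (1 : Wreath R (Fin k → ℤ)) := by
  refine ⟨fun i => by simp, fun c hc => by simp at hc, ?_⟩
  rw [one_lamp, Finsupp.sum_zero_index]

lemma Sz_list (h0 : ν 0 = 0) (hadd : ∀ a b, ν (a + b) ≤ ν a + ν b) {L : ℕ} :
    ∀ l : List (Wreath R (Fin k → ℤ)), (∀ x ∈ l, Sz ν L x) → Sz ν (L * l.length) l.prod
  | [], _ => by simpa using Sz_one h0
  | x :: l, h => by
    have h1 := Sz_list h0 hadd l (fun y hy => h y (List.mem_cons_of_mem _ hy))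
    have h2 := h x List.mem_cons_self
    rw [List.prod_cons, List.length_cons, mul_add, mul_one, add_comm]
    exact Sz.mul h0 hadd h2 h1

lemma exists_ball_bound (h0 : ν 0 = 0) (hadd : ∀ a b, ν (a + b) ≤ ν a + ν b)
    (S : Set (Wreath R (Fin k → ℤ))) (hS : S.Finite) :
    ∃ L : ℕ, 1 ≤ L ∧ ∀ (n : ℕ) (x : Wreath R (Fin k → ℤ)), InBall S n x → Sz ν (L * n) x := by
  classical
  have hfin : (S ∪ {x | x⁻¹ ∈ S}).Finite := by
    apply hS.union
    have : {x | x⁻¹ ∈ S} = S⁻¹ := rfl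
    rw [this]
    exact hS.inv
  choose Lf hLf using fun x : Wreath R (Fin k → ℤ) => exists_Sz (ν := ν) x
  refine ⟨∑ x ∈ hfin.toFinset, Lf x + 1, by omega, ?_⟩
  rintro n x ⟨l, hl, hmem, rfl⟩
  have h1 : ∀ y ∈ l, Sz ν (∑ x ∈ hfin.toFinset, Lf x + 1) y := by
    intro y hy
    apply (hLf y).mono
    have h2 : y ∈ hfin.toFinset := by
      rw [Set.Finite.mem_toFinset]
      exact hmem y hy
    have := Finset.single_le_sum (f := Lf) (fun _ _ => Nat.zero_le _) h2
    omega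
  exact (Sz_list h0 hadd l h1).mono (Nat.mul_le_mul_left _ hl)

/-- The explicit bound for the depth. -/
def BB (p k n : ℕ) : ℕ := ((p * (4 * NN k n * n + 1)) ^ (2 * (n + 1)) * n) ^ 2

lemma le_BB (p k n : ℕ) (hp : 2 ≤ p) (hn : 1 ≤ n) : 2 * n + 1 ≤ BB p k n := by
  unfold BB
  have h1 : 2 ≤ p * (4 * NN k n * n + 1) := Nat.mul_le_mul hp (Nat.succ_pos _)
  have h2 : 2 ^ (2 * (n + 1)) ≤ (p * (4 * NN k n * n + 1)) ^ (2 * (n + 1)) :=
    Nat.pow_le_pow_left h1 _
  have h3 : 2 * (n + 1) < 2 ^ (2 * (n + 1)) := Nat.lt_two_pow_self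
  have h4 : 2 * n + 1 ≤ (p * (4 * NN k n * n + 1)) ^ (2 * (n + 1)) * n := by nlinarith
  nlinarith

/-- Bound for the depth of all pairs of non-conjugate elements of bounded size. -/
theorem pair_bound {p : ℕ} [Fact p.Prime] (φ : R →+* ZMod p) (n : ℕ) (hn : 1 ≤ n)
    (x y : Wreath R (Fin k → ℤ)) (hx : Sz ν n x) (hy : Sz ν n y)
    (hinj : ∀ s t : Finset (Fin k → ℤ), φ (∑ c ∈ s, y.lamp c) = φ (∑ c ∈ t, x.lamp c) →
      ∑ c ∈ s, y.lamp c = ∑ c ∈ t, x.lamp c)
    (hne : ¬ IsConj x y) : depth x y ≤ ((BB p k n : ℕ) : ℕ∞) := by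
  have hp : 2 ≤ p := (Fact.out : p.Prime).two_le
  by_cases hpos : x.pos = y.pos
  · obtain ⟨f, a⟩ := x
    obtain ⟨g, a'⟩ := y
    dsimp only at hpos
    subst hpos
    exact depth_bound φ n hn a hx.1 f g hx.2.1 hy.2.1 hinj hne
  · obtain ⟨i, hi⟩ : ∃ i, x.pos i ≠ y.pos i := by
      by_contra hcon
      push Not at hcon
      exact hpos (funext hcon)
    let π : Wreath R (Fin k → ℤ) →* Multiplicative (ZMod (2 * n + 1)) :=
      { toFun := fun z => Multiplicative.ofAdd ((z.pos i : ℤ) : ZMod (2 * n + 1))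
        map_one' := by simp
        map_mul' := by
          intro z w
          rw [mul_pos', Pi.add_apply]
          push_cast
          rfl }
    have h1 : depth x y ≤ (Nat.card (Multiplicative (ZMod (2 * n + 1))) : ℕ∞) := by
      apply depth_le π
      intro z hz
      rw [map_mul, map_mul, map_inv, mul_comm (π z) (π x), mul_assoc, mul_inv_cancel, mul_one] at hz
      have h2 : ((x.pos i : ℤ) : ZMod (2 * n + 1)) = ((y.pos i : ℤ) : ZMod (2 * n + 1)) := hz
      rw [ZMod.intCast_eq_intCast_iff_dvd_sub] at h2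
      apply hi
      have h3 := hx.1 i
      have h4 := hy.1 i
      have h5 : y.pos i - x.pos i = 0 := by
        apply Int.eq_zero_of_abs_lt_dvd h2
        rw [abs_le] at h3 h4
        rw [abs_lt]
        push_cast
        constructor <;> linarith [h3.1, h3.2, h4.1, h4.2]
      linarith
    refine h1.trans ?_
    have h6 : Nat.card (Multiplicative (ZMod (2 * n + 1))) = 2 * n + 1 := Nat.card_zmod _
    rw [h6]
    exact_mod_cast le_BB p k n hp hn

end

/-! ### The two upper bounds -/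

theorem upper_Fp (p : ℕ) [Fact p.Prime] (k : ℕ) (S : Set (Wreath (ZMod p) (Fin k → ℤ)))
    (hS : S.Finite) : ∃ L : ℕ, 1 ≤ L ∧ ∀ n : ℕ, conjDepth S n ≤ ((BB p k (L * (n + 1)) : ℕ) : ℕ∞) := by
  obtain ⟨L, hL, hb⟩ := exists_ball_bound (ν := fun _ : ZMod p => 0) rfl (fun _ _ => le_rfl) S hS
  refine ⟨L, hL, fun n => ?_⟩
  apply sSup_le
  rintro d ⟨g, h, hg, hh, hne, rfl⟩
  have h1 : 1 ≤ L * (n + 1) := Nat.mul_pos hL (Nat.succ_pos n)
  have h2 : L * n ≤ L * (n + 1) := Nat.mul_le_mul_left _ (Nat.le_succ n)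
  exact pair_bound (RingHom.id (ZMod p)) _ h1 g h ((hb n g hg).mono h2) ((hb n h hh).mono h2)
    (fun _ _ h => h) hne

lemma abs_sum_le {A : Type} (f : A →₀ ℤ) (s : Finset A) :
    |∑ c ∈ s, f c| ≤ ((f.sum (fun _ r => r.natAbs) : ℕ) : ℤ) := by
  classical
  have e2 : f.sum (fun _ r => r.natAbs) = ∑ a ∈ f.support ∪ s, (f a).natAbs :=
    Finsupp.sum_of_support_subset _ Finset.subset_union_left _ (fun _ _ => rfl)
  rw [e2]
  push_cast
  refine (Finset.abs_sum_le_sum_abs _ _).trans ?_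
  exact Finset.sum_le_sum_of_subset_of_nonneg Finset.subset_union_right (fun _ _ _ => abs_nonneg _)

theorem upper_Z (k : ℕ) (S : Set (Wreath ℤ (Fin k → ℤ)))
    (hS : S.Finite) : ∃ L : ℕ, 1 ≤ L ∧ ∀ n : ℕ, ∃ p : ℕ, 2 ≤ p ∧ p ≤ 4 * L * (n + 1) ∧
      conjDepth S n ≤ ((BB p k (L * (n + 1)) : ℕ) : ℕ∞) := by
  obtain ⟨L, hL, hb⟩ := exists_ball_bound (ν := Int.natAbs) rfl Int.natAbs_add_le S hS
  refine ⟨L, hL, fun n => ?_⟩
  have h1 : 1 ≤ L * (n + 1) := Nat.mul_pos hL (Nat.succ_pos n)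
  have h2 : L * n ≤ L * (n + 1) := Nat.mul_le_mul_left _ (Nat.le_succ n)
  obtain ⟨p, hp, hlt, hle⟩ := Nat.exists_prime_lt_and_le_two_mul (2 * (L * (n + 1))) (by omega)
  refine ⟨p, hp.two_le, by nlinarith, ?_⟩
  have : Fact p.Prime := ⟨hp⟩
  apply sSup_le
  rintro d ⟨g, h, hg, hh, hne, rfl⟩
  refine pair_bound (Int.castRingHom (ZMod p)) _ h1 g h ((hb n g hg).mono h2)
    ((hb n h hh).mono h2) ?_ hne
  intro s t hst
  have h3 := abs_sum_le h.lamp s
  have h4 := abs_sum_le g.lamp t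
  have h5 := ((hb n h hh).mono h2).2.2
  have h6 := ((hb n g hg).mono h2).2.2
  generalize h.lamp.sum (fun _ r => r.natAbs) = A at h3 h5
  generalize g.lamp.sum (fun _ r => r.natAbs) = B at h4 h6
  change ((∑ c ∈ s, h.lamp c : ℤ) : ZMod p) = ((∑ c ∈ t, g.lamp c : ℤ) : ZMod p) at hst
  rw [ZMod.intCast_eq_intCast_iff_dvd_sub] at hst
  have h7 : ∑ c ∈ t, g.lamp c - ∑ c ∈ s, h.lamp c = 0 := by
    apply Int.eq_zero_of_abs_lt_dvd hst
    rw [abs_le] at h3 h4
    rw [abs_lt]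
    generalize L * (n + 1) = M at *
    constructor <;> omega
  linarith

end Q22CD
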